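import Pool.Agent.SWP.Defs

/-!
# SWP-Asm: the assembly (finite sets)
-/

set_option autoImplicit false

open Finset

namespace Pool.Agent.SWP

theorem asm {X Y : Type} (R : X → Y → Prop) (n a b l s w : ℕ) (A : Fin a → X)
    (hA : Function.Injective A) (B1 B2 : Finset Y) (A2 : Finset X)
    (hB1 : B1.card = b) (hB2 : B2.card = s) (hA2 : A2.card = w)
    (hd : Disjoint B1 B2) (hAA : ∀ i, A i ∉ A2)
    (h11 : ∀ y ∈ B1, ∀ i, R (A i) y) (h12 : ∀ y ∈ B2, (df R A y).card ≤ l)
    (h21 : ∀ x ∈ A2, ∀ y ∈ B1, R x y) (h22 : ∀ x ∈ A2, ∀ y ∈ B2, R x y)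
    (hr : n + l * s ≤ a + w) (hc : b + s = n) : Bic R n := by
  classical
  set M : Finset (Fin a) := B2.biUnion (df R A) with hM
  have hMc : M.card ≤ l * s := by
    calc M.card ≤ ∑ y ∈ B2, (df R A y).card := Finset.card_biUnion_le
      _ ≤ ∑ _y ∈ B2, l := Finset.sum_le_sum fun y hy => h12 y hy
      _ = l * s := by rw [Finset.sum_const, hB2, smul_eq_mul, mul_comm]
  have hMa : M.card ≤ a := by
    have := Finset.card_le_univ M
    rwa [Fintype.card_fin] at this
  set S : Finset X := (univ \ M).image A ∪ A2 with hS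
  have hdis : Disjoint ((univ \ M).image A) A2 := by
    rw [Finset.disjoint_left]
    intro x hx hx2
    obtain ⟨i, -, rfl⟩ := mem_image.1 hx
    exact hAA i hx2
  have hScard : n ≤ S.card := by
    rw [hS, Finset.card_union_of_disjoint hdis, Finset.card_image_of_injective _ hA,
      Finset.card_sdiff_of_subset (Finset.subset_univ M), Finset.card_univ, Fintype.card_fin, hA2]
    omega
  obtain ⟨T, hTS, hT⟩ := Finset.exists_subset_card_eq hScard
  refine ⟨T, B1 ∪ B2, hT, ?_, ?_⟩
  · rw [Finset.card_union_of_disjoint hd, hB1, hB2, hc]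
  · intro x hx y hy
    have hxS := hTS hx
    rw [hS, mem_union] at hxS
    rw [mem_union] at hy
    rcases hxS with hxS | hxS
    · obtain ⟨i, hi, rfl⟩ := mem_image.1 hxS
      rcases hy with hy | hy
      · exact h11 y hy i
      · by_contra hcon
        have h1 : i ∈ M := by
          rw [hM, mem_biUnion]
          exact ⟨y, hy, by
            unfold df
            rw [mem_filter]
            exact ⟨mem_univ _, hcon⟩⟩
        exact (mem_sdiff.1 hi).2 h1
    · rcases hy with hy | hy
      · exact h21 x hxS y hy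
      · exact h22 x hxS y hy

end Pool.Agent.SWP
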