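import Pool.Agent.SWP.Few

/-!
# SWP-StepB: the first columns

PLAN.  `Bad = {x | (1/2+η)|P| ≤ |nb (¬R) P x|}`, by `few` (for the relation `¬ R`, `ρ = 1/2+η`; `2 n² ≤ |P|/2`)
`|Bad| (1/2+η)^n < 2 n`, so `|Bad| + a ≤ N/(2n)` by `h2`.  `Xg = univ \ (Bad ∪ image A)`, `|Xg| ≥ N - N/(2n) ≥ N/2`.  For `y ∈ Y1`:
`#{x ∈ Xg | R x y} ≥ deg y - N/(2n) ≥ (1/2 - 1/n) N ≥ (1/2-1/n)|Xg|`, sum over `y ∈ Y1` and exchange the sums: hypothesis of
`sel` with `α = Y`, `P := Y1`, `β = X`, `Q := Xg`, `T y x := R x y`, `t = b`, `ρ = 1/2 - 1/n ≥ 1/4`; `2 b² ≤ 2 n² ≤ |Y1|/4`.  It gives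
`B1 ⊆ Y1`, `X1 = {x ∈ Xg | ∀ y ∈ B1, R x y}`, `|X1| ≥ (1/2) ρ^b |Xg| ≥ (1/4) ρ^b N`.  For `x ∉ Bad`: `|nb R P x| = |P| - |nb (¬R) P x| ≥ (1/2-η)|P|`.
-/

set_option autoImplicit false

open Finset

namespace Pool.Agent.SWP

private theorem two {Y : Type} (S : Finset Y) (p : Y → Prop) {d : DecidablePred p}
    {d' : DecidablePred fun y => ¬ p y} :
    (@Finset.filter Y p d S).card + (@Finset.filter Y (fun y => ¬ p y) d' S).card = S.card :=
  @card_filter_add_card_filter_not Y S p d d'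

open Classical in
theorem stepB {X Y : Type} [Fintype X] (R : X → Y → Prop) (N n a b : ℕ) (η : ℝ)
    (hX : Fintype.card X = N)
    (hblue : ¬ Bic (fun x y => ¬ R x y) n) (hn : 4 ≤ n) (hb : b ≤ n) (hη : 0 < η)
    (A : Fin a → X) (Y1 P : Finset Y)
    (hdeg : ∀ y ∈ Y1,
      (1 / 2 - 1 / (2 * (n : ℝ))) * N ≤ ((univ.filter (fun x : X => R x y)).card : ℝ))
    (hY1 : 8 * (n : ℝ) ^ 2 ≤ Y1.card) (hP : 4 * (n : ℝ) ^ 2 ≤ P.card)
    (h2 : 2 * (n : ℝ) / (1 / 2 + η) ^ n + a ≤ (N : ℝ) / (2 * n)) :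
    ∃ B1 ⊆ Y1, B1.card = b ∧ ∃ X1 : Finset X, (∀ x ∈ X1, ∀ i, A i ≠ x) ∧
      (∀ x ∈ X1, ∀ y ∈ B1, R x y) ∧
      (∀ x ∈ X1, (1 / 2 - η) * P.card ≤ ((nb R P x).card : ℝ)) ∧
      (1 / 4 : ℝ) * (1 / 2 - 1 / (n : ℝ)) ^ b * N ≤ X1.card := by
  have hn4 : (4 : ℝ) ≤ n := by exact_mod_cast hn
  have hn0 : (0 : ℝ) < n := by linarith
  have hN0 : (0 : ℝ) ≤ N := Nat.cast_nonneg _
  have hinv : 1 / (n : ℝ) ≤ 1 / 4 := one_div_le_one_div_of_le (by norm_num) hn4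
  have hpow : (0 : ℝ) < (1 / 2 + η) ^ n := by positivity
  -- the bad rows
  obtain ⟨Bad, hBad⟩ : ∃ Bad : Finset X, Bad = univ.filter (fun x : X =>
      (1 / 2 + η) * P.card ≤ ((nb (fun x y => ¬ R x y) P x).card : ℝ)) := ⟨_, rfl⟩
  have hfew := few (fun x y => ¬ R x y) n hblue P (1 / 2 + η) (by linarith) (by nlinarith)
  have hBc : (Bad.card : ℝ) ≤ 2 * (n : ℝ) / (1 / 2 + η) ^ n := by
    rw [le_div_iff₀ hpow, hBad]
    exact hfew.le
  obtain ⟨E, hE⟩ : ∃ E : Finset X, E = Bad ∪ univ.image A := ⟨_, rfl⟩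
  have hEc : (E.card : ℝ) ≤ (N : ℝ) / (2 * n) := by
    have h3 : E.card ≤ Bad.card + a := by
      rw [hE]
      refine (card_union_le _ _).trans (Nat.add_le_add_left ?_ _)
      refine card_image_le.trans ?_
      rw [card_univ, Fintype.card_fin]
    have h4 : (E.card : ℝ) ≤ (Bad.card : ℝ) + (a : ℝ) := by exact_mod_cast h3
    linarith
  obtain ⟨Xg, hXg⟩ : ∃ Xg : Finset X, Xg = univ \ E := ⟨_, rfl⟩
  have hXgc : (N : ℝ) - (N : ℝ) / (2 * n) ≤ (Xg.card : ℝ) := by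
    have h3 : Xg.card + E.card = N := by
      rw [hXg, card_sdiff_add_card_eq_card (subset_univ _), card_univ, hX]
    have h4 : (Xg.card : ℝ) + (E.card : ℝ) = N := by exact_mod_cast h3
    linarith
  have hXgN : (Xg.card : ℝ) ≤ N := by
    have h3 : Xg.card ≤ N := by
      rw [← hX, ← card_univ]
      exact card_le_card (subset_univ _)
    exact_mod_cast h3
  have hNn : (N : ℝ) / (2 * n) = N * (1 / (2 * n)) := by ring
  have hhalf : 1 / (2 * (n : ℝ)) = 1 / 2 * (1 / n) := by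
    field_simp
  have hXg2 : (N : ℝ) / 2 ≤ (Xg.card : ℝ) := by
    rw [hNn, hhalf] at hXgc
    nlinarith
  have hρ : (1 / 4 : ℝ) ≤ 1 / 2 - 1 / (n : ℝ) := by linarith
  -- degrees in the good rows
  have hdg : ∀ y ∈ Y1, (1 / 2 - 1 / (n : ℝ)) * Xg.card ≤
      ((Xg.filter (fun x => R x y)).card : ℝ) := by
    intro y hy
    have h3 := hdeg y hy
    have h4 : (univ.filter (fun x : X => R x y)).card ≤
        (Xg.filter (fun x => R x y)).card + E.card := by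
      refine (card_le_card ?_).trans (card_union_le _ _)
      intro x hx
      by_cases hxE : x ∈ E
      · exact mem_union_right _ hxE
      · refine mem_union_left _ (mem_filter.2 ⟨?_, (mem_filter.1 hx).2⟩)
        rw [hXg]
        exact mem_sdiff.2 ⟨mem_univ _, hxE⟩
    have h5 : ((univ.filter (fun x : X => R x y)).card : ℝ) ≤
        ((Xg.filter (fun x => R x y)).card : ℝ) + (E.card : ℝ) := by exact_mod_cast h4
    have h6 : (1 / 2 - 1 / (n : ℝ)) * Xg.card ≤ (1 / 2 - 1 / (n : ℝ)) * N :=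
      mul_le_mul_of_nonneg_left hXgN (by linarith)
    have h7 : (1 / 2 - 1 / (2 * (n : ℝ))) * N - (N : ℝ) / (2 * n) = (1 / 2 - 1 / (n : ℝ)) * N := by
      field_simp
      ring
    linarith
  have hsum : (1 / 2 - 1 / (n : ℝ)) * Y1.card * Xg.card ≤
      ∑ x ∈ Xg, ((Y1.filter (fun y => R x y)).card : ℝ) := by
    have h3 : ∑ x ∈ Xg, ((Y1.filter (fun y => R x y)).card : ℝ) =
        ∑ y ∈ Y1, ((Xg.filter (fun x => R x y)).card : ℝ) := by
      simp only [natCast_card_filter]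
      exact sum_comm
    rw [h3]
    have h4 := sum_le_sum hdg
    rw [sum_const, nsmul_eq_mul] at h4
    calc (1 / 2 - 1 / (n : ℝ)) * Y1.card * Xg.card
        = (Y1.card : ℝ) * ((1 / 2 - 1 / (n : ℝ)) * Xg.card) := by ring
      _ ≤ _ := h4
  have hb' : (b : ℝ) ≤ n := by exact_mod_cast hb
  have hb0 : (0 : ℝ) ≤ b := Nat.cast_nonneg _
  have hXg0 : Xg.Nonempty := by
    have h8 : 0 < (N : ℝ) / (2 * n) := by
      have h9 : 0 < 2 * (n : ℝ) / (1 / 2 + η) ^ n := by positivity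
      have h10 : (0 : ℝ) ≤ a := Nat.cast_nonneg a
      linarith
    have h11 : (0 : ℝ) < N := by
      by_contra h12
      have h13 : (N : ℝ) = 0 := le_antisymm (not_lt.1 h12) hN0
      rw [h13, zero_div] at h8
      exact lt_irrefl _ h8
    have h14 : (0 : ℝ) < Xg.card := by linarith
    exact card_pos.1 (by exact_mod_cast h14)
  obtain ⟨B1, hB1, hB1c, hcard⟩ := sel Y1 Xg (fun y x => R x y) b (1 / 2 - 1 / (n : ℝ))
    (by linarith) hsum (by nlinarith) hXg0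
  refine ⟨B1, hB1, hB1c, Xg.filter (fun x => ∀ y ∈ B1, R x y), ?_, ?_, ?_, ?_⟩
  · intro x hx i hi
    have h3 := (mem_filter.1 hx).1
    rw [hXg, mem_sdiff, hE] at h3
    exact h3.2 (mem_union_right _ (mem_image.2 ⟨i, mem_univ _, hi⟩))
  · intro x hx
    exact (mem_filter.1 hx).2
  · intro x hx
    have h3 := (mem_filter.1 hx).1
    rw [hXg, mem_sdiff, hE, mem_union, not_or, hBad] at h3
    have h4 : ((nb (fun x y => ¬ R x y) P x).card : ℝ) < (1 / 2 + η) * P.card := by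
      by_contra h5
      exact h3.2.1 (mem_filter.2 ⟨mem_univ _, not_lt.1 h5⟩)
    have h5 : (nb R P x).card + (nb (fun x y => ¬ R x y) P x).card = P.card := by
      unfold nb
      exact two P (fun y => R x y)
    have h6 : ((nb R P x).card : ℝ) + ((nb (fun x y => ¬ R x y) P x).card : ℝ) =
        (P.card : ℝ) := by exact_mod_cast h5
    linarith
  · refine le_trans ?_ hcard
    have h3 : (0 : ℝ) ≤ (1 / 2 - 1 / (n : ℝ)) ^ b := pow_nonneg (by linarith) _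
    have h4 := mul_le_mul_of_nonneg_left hXg2 h3
    linarith

end Pool.Agent.SWP
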