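import Pool.Agent.SWP.StepA
import Pool.Agent.SWP.StepB
import Pool.Agent.SWP.Asm

/-!
# SWP-Core: the main argument with numerical hypotheses
-/

set_option autoImplicit false

open Finset

namespace Pool.Agent.SWP

open Classical in
theorem core {X Y : Type} [Fintype X] [Fintype Y] (R : X → Y → Prop) (N n l a b s w : ℕ) (η : ℝ)
    (hX : Fintype.card X = N) (hY : Fintype.card Y = N)
    (hden : (N : ℝ) ^ 2 / 2 ≤ ∑ y : Y, ((univ.filter (fun x : X => R x y)).card : ℝ))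
    (hno : ¬ Bic R n) (hblue : ¬ Bic (fun x y => ¬ R x y) n)
    (hn : 4 ≤ n) (ha : n ≤ 4 * a) (ha' : a ≤ n) (hl : 1 ≤ l) (hla : l ≤ a)
    (hη : 0 < η) (hη' : η ≤ 1 / 4) (hbs : b + s = n) (hw : n + l * s ≤ a + w)
    (hbad : ((a * (l * (a + 1) ^ l) : ℕ) : ℝ) * (8 * n * (3 / 2 : ℝ) ^ n) + 2 * (a : ℝ) ^ 2 ≤
      (N : ℝ) / 2)
    (h1 : 8 * (n : ℝ) ^ 2 * 2 ^ l ≤ (N : ℝ) / (8 * 2 ^ a))
    (h2 : 2 * (n : ℝ) / (1 / 2 + η) ^ n + a ≤ (N : ℝ) / (2 * n))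
    (h3 : 2 * (w : ℝ) ^ 2 ≤ (1 / 2 - η) * ((1 / 4 : ℝ) * (1 / 2 - 1 / (n : ℝ)) ^ b * N))
    (h4 : (s : ℝ) ≤ (1 / 2 : ℝ) * (1 / 2 - η) ^ w * ((a.choose l : ℝ) / 2 ^ l *
      ((N : ℝ) / (8 * 2 ^ a)))) : False := by
  obtain ⟨A, Y1, P, hA, hdis, hYA, hPA, hdeg, hY1, hPc⟩ :=
    stepA R N n l a hX hY hden hno hn ha ha' hl hbad h1
  have hρ : (0 : ℝ) < 1 / 2 - η := by linarith
  have hl2 : (1 : ℝ) ≤ 2 ^ l := one_le_pow₀ (by norm_num)
  have hl0 : (0 : ℝ) < 2 ^ l := by positivity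
  have hn2 : (0 : ℝ) ≤ 8 * (n : ℝ) ^ 2 := by positivity
  have hY1' : 8 * (n : ℝ) ^ 2 * 2 ^ l ≤ Y1.card := h1.trans hY1
  have hY1'' : 8 * (n : ℝ) ^ 2 ≤ Y1.card := le_trans (le_mul_of_one_le_right hn2 hl2) hY1'
  have hPr : (a.choose l : ℝ) * Y1.card ≤ 2 ^ l * P.card := by exact_mod_cast hPc
  have hch : (1 : ℝ) ≤ (a.choose l : ℝ) := by exact_mod_cast Nat.choose_pos hla
  have hP8 : 8 * (n : ℝ) ^ 2 ≤ P.card := by
    have e1 : (Y1.card : ℝ) ≤ (a.choose l : ℝ) * Y1.card :=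
      le_mul_of_one_le_left (Nat.cast_nonneg _) hch
    have e2 : 2 ^ l * (8 * (n : ℝ) ^ 2) ≤ 2 ^ l * (P.card : ℝ) := by linarith
    exact le_of_mul_le_mul_left e2 hl0
  have hP4 : 4 * (n : ℝ) ^ 2 ≤ P.card := by
    have : (0 : ℝ) ≤ (n : ℝ) ^ 2 := by positivity
    linarith
  obtain ⟨B1, hB1, hB1c, X1, hX1A, hX1B, hX1n, hX1c⟩ :=
    stepB R N n a b η hX hblue hn (by omega) hη A Y1 P hdeg hY1'' hP4 h2
  have hsum : (1 / 2 - η) * X1.card * P.card ≤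
      ∑ y ∈ P, ((X1.filter (fun x => R x y)).card : ℝ) := by
    have e1 : ∑ y ∈ P, ((X1.filter (fun x => R x y)).card : ℝ) =
        ∑ x ∈ X1, ((nb R P x).card : ℝ) := by
      have e2 := Finset.sum_card_bipartiteAbove_eq_sum_card_bipartiteBelow (s := X1) (t := P)
        (fun x y => R x y)
      have e3 : ∑ x ∈ X1, (nb R P x).card = ∑ y ∈ P, (X1.filter (fun x => R x y)).card := e2
      exact_mod_cast e3.symm
    rw [e1]
    calc (1 / 2 - η) * X1.card * P.card = ∑ x ∈ X1, (1 / 2 - η) * (P.card : ℝ) := by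
          rw [Finset.sum_const, nsmul_eq_mul]
          ring
      _ ≤ _ := Finset.sum_le_sum fun x hx => hX1n x hx
  have hP0 : P.Nonempty := by
    rw [Finset.nonempty_iff_ne_empty]
    intro h0
    rw [h0, Finset.card_empty, Nat.cast_zero] at hP4
    have : (4 : ℝ) ≤ n := by exact_mod_cast hn
    nlinarith
  obtain ⟨A2, hA2, hA2c, hcom⟩ := sel X1 P (fun x y => R x y) w (1 / 2 - η) hρ hsum
    (h3.trans (mul_le_mul_of_nonneg_left hX1c hρ.le)) hP0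
  have hPbig : (a.choose l : ℝ) / 2 ^ l * ((N : ℝ) / (8 * 2 ^ a)) ≤ P.card := by
    have e1 : (a.choose l : ℝ) / 2 ^ l * ((N : ℝ) / (8 * 2 ^ a)) ≤
        (a.choose l : ℝ) / 2 ^ l * Y1.card := mul_le_mul_of_nonneg_left hY1 (by positivity)
    refine e1.trans ?_
    rw [div_mul_eq_mul_div, div_le_iff₀ hl0, mul_comm (P.card : ℝ)]
    exact hPr
  have hs : s ≤ (P.filter (fun y => ∀ x ∈ A2, R x y)).card := by
    have e1 : (s : ℝ) ≤ ((P.filter (fun y => ∀ x ∈ A2, R x y)).card : ℝ) := by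
      refine (h4.trans (mul_le_mul_of_nonneg_left hPbig (by positivity))).trans
        (le_of_le_of_eq hcom ?_)
      congr
    exact_mod_cast e1
  obtain ⟨B2, hB2, hB2c⟩ := Finset.exists_subset_card_eq hs
  have hB2P : ∀ y ∈ B2, y ∈ P := fun y hy => (Finset.mem_filter.1 (hB2 hy)).1
  exact hno (asm R n a b l s w A hA B1 B2 A2 hB1c hB2c hA2c
    (Finset.disjoint_of_subset_left hB1 (Finset.disjoint_of_subset_right hB2P hdis))
    (fun i hi => hX1A _ (hA2 hi) i rfl) (fun y hy => hYA y (hB1 hy))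
    (fun y hy => hPA y (hB2P y hy)) (fun x hx => hX1B x (hA2 hx))
    (fun x hx y hy => (Finset.mem_filter.1 (hB2 hy)).2 x hx) hw hbs)

end Pool.Agent.SWP
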