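import Mathlib

/-! # Project SWP (MP_d68c97_co): bipartite Ramsey numbers below `2^n`: definitions -/

set_option autoImplicit false

open Finset

namespace Pool.Agent.SWP

/-- the relation `R` contains a complete bipartite graph `K_{n,n}` -/
def Bic {X Y : Type} (R : X → Y → Prop) (n : ℕ) : Prop :=
  ∃ (A : Finset X) (B : Finset Y), A.card = n ∧ B.card = n ∧ ∀ x ∈ A, ∀ y ∈ B, R x y

open Classical in
/-- the elements of `Q` related to `x` -/
noncomputable def nb {X Y : Type} (R : X → Y → Prop) (Q : Finset Y) (x : X) : Finset Y :=
  Q.filter (fun y => R x y)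

open Classical in
/-- the defects of the column `y` in the tuple of rows `A` -/
noncomputable def df {X Y : Type} (R : X → Y → Prop) {a : ℕ} (A : Fin a → X) (y : Y) :
    Finset (Fin a) :=
  univ.filter (fun i => ¬ R (A i) y)

open Classical in
/-- the columns in `H` whose set of defects is `I` -/
noncomputable def pt {X Y : Type} (R : X → Y → Prop) (H : Finset Y) {a : ℕ} (A : Fin a → X)
    (I : Finset (Fin a)) : Finset Y :=
  H.filter (fun y => df R A y = I)

open Classical in
/-- the columns in `H` whose set of defects is `J`, the row `A i` being ignored (`i ∉ J`) -/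
noncomputable def pu {X Y : Type} (R : X → Y → Prop) (H : Finset Y) {a : ℕ} (A : Fin a → X)
    (J : Finset (Fin a)) (i : Fin a) : Finset Y :=
  H.filter (fun y => ∀ j, j ≠ i → (j ∈ J ↔ ¬ R (A j) y))

/-- goodness of a tuple: each row `A i` is red to less than two thirds of the columns with given
small set of defects outside of `i` -/
def Gd {X Y : Type} (R : X → Y → Prop) (H : Finset Y) (n l : ℕ) {a : ℕ} (A : Fin a → X) : Prop :=
  ∀ (J : Finset (Fin a)) (i : Fin a), i ∉ J → J.card < l → 3 * n ^ 2 ≤ (pu R H A J i).card →
    3 * (nb R (pu R H A J i) (A i)).card < 2 * (pu R H A J i).card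

end Pool.Agent.SWP
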