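import Pool.Agent.SWP.Sel

/-!
# SWP-Few: regularity (Kovari-Sos-Turan)

Double counting and the selection lemma `sel`.
-/

set_option autoImplicit false

open Finset

namespace Pool.Agent.SWP

open Classical in
theorem few {X Y : Type} [Fintype X] (R : X → Y → Prop) (n : ℕ) (hno : ¬ Bic R n)
    (Q : Finset Y) (ρ : ℝ) (hρ : 0 < ρ) (hQ : 2 * (n : ℝ) ^ 2 ≤ ρ * Q.card) :
    ((univ.filter (fun x : X => ρ * Q.card ≤ ((nb R Q x).card : ℝ))).card : ℝ) * ρ ^ n
      < 2 * n := by
  by_contra hc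
  rw [not_lt] at hc
  set P : Finset X := univ.filter (fun x : X => ρ * Q.card ≤ ((nb R Q x).card : ℝ)) with hP
  have hsum : ρ * Q.card * P.card ≤
      ∑ x ∈ P, ((Q.filter (fun y => R x y)).card : ℝ) := by
    have h1 : ∑ x ∈ P, (ρ * Q.card) ≤ ∑ x ∈ P, ((Q.filter (fun y => R x y)).card : ℝ) := by
      refine sum_le_sum fun x hx => ?_
      exact (mem_filter.1 hx).2
    rw [sum_const, nsmul_eq_mul] at h1
    linarith
  have hP0 : P.Nonempty := by
    rw [Finset.nonempty_iff_ne_empty]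
    intro h0
    rw [h0, card_empty, Nat.cast_zero, zero_mul] at hc
    have hn : n = 0 := by
      have : (n : ℝ) ≤ 0 := by linarith
      exact_mod_cast le_antisymm this (Nat.cast_nonneg n)
    subst hn
    exact hno ⟨∅, ∅, card_empty, card_empty, fun x hx => absurd hx (notMem_empty x)⟩
  obtain ⟨A, hAQ, hAn, hA⟩ := sel Q P (fun y x => R x y) n ρ hρ hsum hQ hP0
  have h2 : (n : ℝ) ≤ ((P.filter (fun x => ∀ y ∈ A, R x y)).card : ℝ) := by
    refine le_trans ?_ hA
    linarith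
  obtain ⟨A', hA', hA'n⟩ := exists_subset_card_eq (Nat.cast_le.1 h2)
  exact hno ⟨A', A, hA'n, hAn, fun x hx y hy => (mem_filter.1 (hA' hx)).2 y hy⟩

end Pool.Agent.SWP
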