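import Pool.Agent.SWP.NumDefs

/-!
# SWP-NumA: exponential inequalities (Mathlib only)

Polynomials times `(3/4)^n`, `(1/(1 + 2 η))^n`, `(1/2)^n` tend to zero.
-/

set_option autoImplicit false

open Filter

namespace Pool.Agent.SWP

theorem num1 (l : ℕ) : ∀ᶠ n : ℕ in atTop,
    ((n * (l * (n + 1) ^ l) : ℕ) : ℝ) * (8 * n * (3 / 2 : ℝ) ^ n) + 2 * (n : ℝ) ^ 2 ≤
      ((2 : ℝ) ^ n / n) / 2 := by
  have e1 : (0 : ℝ) < 1 / (32 * ((l : ℝ) * 2 ^ l + 1)) := by positivity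
  have t1 := tendsto_pow_const_mul_const_pow_of_abs_lt_one (l + 3) (r := (3 / 4 : ℝ))
    (by rw [abs_lt]; constructor <;> norm_num)
  have t2 := tendsto_pow_const_mul_const_pow_of_abs_lt_one 3 (r := (1 / 2 : ℝ))
    (by rw [abs_lt]; constructor <;> norm_num)
  filter_upwards [t1.eventually (gt_mem_nhds e1),
    t2.eventually (gt_mem_nhds (by norm_num : (0 : ℝ) < 1 / 8)), eventually_ge_atTop 1]
    with n h1 h2 hn
  have hN : (1 : ℝ) ≤ (n : ℝ) := by exact_mod_cast hn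
  have hN0 : (0 : ℝ) < (n : ℝ) := by linarith
  set N : ℝ := (n : ℝ) with hNdef
  have h2n : (0 : ℝ) < 2 ^ n := by positivity
  have hA : (0 : ℝ) < 2 ^ n / N := div_pos h2n hN0
  have hl0 : (0 : ℝ) ≤ (l : ℝ) * 2 ^ l := by positivity
  have q1 : (3 / 2 : ℝ) ^ n = (3 / 4) ^ n * 2 ^ n := by
    rw [← mul_pow]
    norm_num
  have q2 : (1 / 2 : ℝ) ^ n * 2 ^ n = 1 := by
    rw [← mul_pow]
    norm_num
  have h3 : N * (l * (N + 1) ^ l) * (8 * N * (3 / 2 : ℝ) ^ n) ≤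
      8 * ((l : ℝ) * 2 ^ l) * (N ^ (l + 3) * (3 / 4) ^ n) * (2 ^ n / N) := by
    have h4 : (N + 1) ^ l ≤ 2 ^ l * N ^ l := by
      rw [← mul_pow]
      exact pow_le_pow_left₀ (by linarith) (by linarith) l
    have h5 : 8 * ((l : ℝ) * 2 ^ l) * (N ^ (l + 3) * (3 / 4) ^ n) * (2 ^ n / N) =
        (8 * l * N ^ 2 * (3 / 2 : ℝ) ^ n) * (2 ^ l * N ^ l) := by
      rw [q1, pow_add]
      field_simp
    rw [h5]
    have h6 : N * (l * (N + 1) ^ l) * (8 * N * (3 / 2 : ℝ) ^ n) =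
        (8 * l * N ^ 2 * (3 / 2 : ℝ) ^ n) * (N + 1) ^ l := by ring
    rw [h6]
    exact mul_le_mul_of_nonneg_left h4 (by positivity)
  have h7 : 8 * ((l : ℝ) * 2 ^ l) * (N ^ (l + 3) * (3 / 4) ^ n) ≤ 1 / 4 := by
    have h8 : 8 * ((l : ℝ) * 2 ^ l) * (N ^ (l + 3) * (3 / 4) ^ n) ≤
        8 * ((l : ℝ) * 2 ^ l) * (1 / (32 * ((l : ℝ) * 2 ^ l + 1))) :=
      mul_le_mul_of_nonneg_left h1.le (by positivity)
    refine h8.trans ?_
    rw [mul_one_div, div_le_div_iff₀ (by positivity) (by norm_num)]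
    nlinarith
  have h9 : 2 * N ^ 2 = 2 * (N ^ 3 * (1 / 2) ^ n) * (2 ^ n / N) := by
    have h10 : 2 * (N ^ 3 * (1 / 2) ^ n) * (2 ^ n / N) =
        2 * N ^ 2 * ((1 / 2) ^ n * 2 ^ n) * (N / N) := by
      ring
    rw [h10, q2, div_self hN0.ne', mul_one, mul_one]
  have h10 : 2 * N ^ 2 ≤ 1 / 4 * (2 ^ n / N) := by
    rw [h9]
    exact mul_le_mul_of_nonneg_right (by linarith) hA.le
  have h11 : N * (l * (N + 1) ^ l) * (8 * N * (3 / 2 : ℝ) ^ n) ≤ 1 / 4 * (2 ^ n / N) :=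
    h3.trans (mul_le_mul_of_nonneg_right h7 hA.le)
  push_cast
  linarith

theorem num2 (η : ℝ) (hη : 0 < η) : ∀ᶠ n : ℕ in atTop,
    2 * (n : ℝ) / (1 / 2 + η) ^ n + n ≤ ((2 : ℝ) ^ n / n) / (2 * n) := by
  have hr : (1 : ℝ) < 1 + 2 * η := by linarith
  have t1 := tendsto_pow_const_mul_const_pow_of_abs_lt_one 3 (r := (1 / (1 + 2 * η) : ℝ))
    (by
      rw [abs_of_pos (by positivity), div_lt_one (by linarith)]
      exact hr)
  have t2 := tendsto_pow_const_mul_const_pow_of_abs_lt_one 3 (r := (1 / 2 : ℝ))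
    (by rw [abs_lt]; constructor <;> norm_num)
  filter_upwards [t1.eventually (gt_mem_nhds (by norm_num : (0 : ℝ) < 1 / 8)),
    t2.eventually (gt_mem_nhds (by norm_num : (0 : ℝ) < 1 / 8)), eventually_ge_atTop 1]
    with n h1 h2 hn
  have hN : (1 : ℝ) ≤ (n : ℝ) := by exact_mod_cast hn
  have hN0 : (0 : ℝ) < (n : ℝ) := by linarith
  set N : ℝ := (n : ℝ) with hNdef
  have h2n : (0 : ℝ) < 2 ^ n := by positivity
  have hA : (0 : ℝ) < 2 ^ n / N / (2 * N) := by positivity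
  have hb : (0 : ℝ) < (1 / 2 + η) ^ n := by positivity
  have q1 : (1 / (1 + 2 * η)) ^ n * 2 ^ n = 1 / (1 / 2 + η) ^ n := by
    have h3 : (1 / (1 + 2 * η)) ^ n * 2 ^ n = (1 / (1 / 2 + η)) ^ n := by
      rw [← mul_pow]
      congr 1
      field_simp
    rw [h3, one_div_pow]
  have q2 : (1 / 2 : ℝ) ^ n * 2 ^ n = 1 := by
    rw [← mul_pow]
    norm_num
  have h3 : 2 * N / (1 / 2 + η) ^ n =
      4 * (N ^ 3 * (1 / (1 + 2 * η)) ^ n) * (2 ^ n / N / (2 * N)) := by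
    have h4 : 4 * (N ^ 3 * (1 / (1 + 2 * η)) ^ n) * (2 ^ n / N / (2 * N)) =
        2 * N * ((1 / (1 + 2 * η)) ^ n * 2 ^ n) * (N / N) * (N / N) := by
      field_simp
      ring
    rw [h4, q1, div_self hN0.ne', mul_one, mul_one]
    ring
  have h5 : N = 2 * (N ^ 3 * (1 / 2) ^ n) * (2 ^ n / N / (2 * N)) := by
    have h6 : 2 * (N ^ 3 * (1 / 2) ^ n) * (2 ^ n / N / (2 * N)) =
        N * ((1 / 2) ^ n * 2 ^ n) * (N / N) * (N / N) := by
      field_simp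
    rw [h6, q2, div_self hN0.ne', mul_one, mul_one, mul_one]
  have h7 : 2 * N / (1 / 2 + η) ^ n ≤ 1 / 2 * (2 ^ n / N / (2 * N)) := by
    rw [h3]
    exact mul_le_mul_of_nonneg_right (by linarith) hA.le
  have h8 : N ≤ 1 / 4 * (2 ^ n / N / (2 * N)) := by
    calc N = 2 * (N ^ 3 * (1 / 2) ^ n) * (2 ^ n / N / (2 * N)) := h5
      _ ≤ 1 / 4 * (2 ^ n / N / (2 * N)) := mul_le_mul_of_nonneg_right (by linarith) hA.le
  linarith

end Pool.Agent.SWP
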