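import Pool.Agent.SWP.NumB

/-!
# SWP-NumC: the first main inequality

`a = n - S`, `b = n - s`, `w = S + l s`, `S = pS n`, `s = ps ε n`; `2^n/n^(1-ε) ≤ N`.
`num3`: `(1/2 - 1/n)^b ≥ 2^(-b) (1 - 2/n)^n ≥ 2^(-b) exp(-4)` for `n ≥ 4`,
`N 2^(-b) ≥ 2^s n^(-(1-ε)) ≥ n^(ε/2)`, `1/2 - η ≥ 1/4`, `w ≤ (5+l)(log₂ n+1)`.
-/

set_option autoImplicit false

open Filter

namespace Pool.Agent.SWP

private theorem numC_exp (n : ℕ) (hn : 4 ≤ n) : Real.exp (-4) ≤ (1 - 2 / (n : ℝ)) ^ n := by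
  have hnr : (4 : ℝ) ≤ n := by exact_mod_cast hn
  have hn0 : (0 : ℝ) < n := by linarith
  have hx2 : 2 / (n : ℝ) ≤ 1 / 2 := by
    rw [div_le_div_iff₀ hn0 (by norm_num)]
    linarith
  have hx : 0 < 1 - 2 / (n : ℝ) := by linarith
  have h1 : 1 - (1 - 2 / (n : ℝ))⁻¹ ≤ Real.log (1 - 2 / (n : ℝ)) := Real.one_sub_inv_le_log_of_pos hx
  have h2 : (1 - 2 / (n : ℝ))⁻¹ ≤ 1 + 4 / n := by
    rw [inv_le_iff_one_le_mul₀ hx]
    have h3 : (1 + 4 / (n : ℝ)) * (1 - 2 / n) = 1 + 2 / n * (1 - 2 * (2 / n)) := by ring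
    rw [h3]
    have h4 : 0 ≤ 2 / (n : ℝ) * (1 - 2 * (2 / n)) := mul_nonneg (by positivity) (by linarith)
    linarith
  have h5 : -4 ≤ (n : ℝ) * Real.log (1 - 2 / (n : ℝ)) := by
    have h6 : -(4 / (n : ℝ)) ≤ Real.log (1 - 2 / (n : ℝ)) := by linarith
    have h7 := mul_le_mul_of_nonneg_left h6 hn0.le
    have h8 : (n : ℝ) * -(4 / (n : ℝ)) = -4 := by
      field_simp
    linarith
  calc Real.exp (-4) ≤ Real.exp ((n : ℝ) * Real.log (1 - 2 / (n : ℝ))) := Real.exp_le_exp.2 h5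
    _ = (1 - 2 / (n : ℝ)) ^ n := by rw [Real.exp_nat_mul, Real.exp_log hx]

theorem num3 (ε : ℝ) (hε : 0 < ε) (hε1 : ε ≤ 1) (l : ℕ) (η : ℝ) (hη : 0 < η) (hη' : η ≤ 1 / 4) :
    ∀ᶠ n : ℕ in atTop, ∀ N : ℝ, (2 : ℝ) ^ n / (n : ℝ) ^ (1 - ε) ≤ N →
      2 * ((pS n + l * ps ε n : ℕ) : ℝ) ^ 2 ≤
        (1 / 2 - η) * ((1 / 4 : ℝ) * (1 / 2 - 1 / (n : ℝ)) ^ (n - ps ε n) * N) := by
  filter_upwards [logb_pow_small (32 * (5 + (l : ℝ)) ^ 2 * Real.exp 4) (ε / 2) (by positivity) 2,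
    logb_small 1 1 one_pos, eventually_ge_atTop 4] with n h1 h2 hn N hN
  have hn1 : 1 ≤ n := by omega
  have hnr : (4 : ℝ) ≤ n := by exact_mod_cast hn
  have hn0 : (0 : ℝ) < n := by linarith
  have hL : 0 ≤ Real.logb 2 n := Real.logb_nonneg (by norm_num) (by linarith)
  have hS := pS_le n hn1
  have hs := ps_le ε hε hε1 n hn1
  have hsge := ps_ge ε n hn1
  generalize Real.logb 2 n = L at *
  generalize ps ε n = s at *
  have hsn : s ≤ n := by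
    have : (s : ℝ) ≤ n := by linarith
    exact_mod_cast this
  have hw : ((pS n + l * s : ℕ) : ℝ) ≤ (5 + l) * (L + 1) := by
    push_cast
    have h3 : (l : ℝ) * s ≤ l * (L + 1) := mul_le_mul_of_nonneg_left hs (Nat.cast_nonneg l)
    nlinarith
  have hw2 : 2 * ((pS n + l * s : ℕ) : ℝ) ^ 2 ≤ 2 * ((5 + l) * (L + 1)) ^ 2 := by
    have h3 : ((pS n + l * s : ℕ) : ℝ) ^ 2 ≤ ((5 + l) * (L + 1)) ^ 2 :=
      pow_le_pow_left₀ (Nat.cast_nonneg _) hw 2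
    linarith
  have hpos : 0 < (2 : ℝ) ^ n / (n : ℝ) ^ (1 - ε) := by positivity
  have hN0 : 0 < N := lt_of_lt_of_le hpos hN
  have hx2 : 2 / (n : ℝ) ≤ 1 / 2 := by
    rw [div_le_div_iff₀ hn0 (by norm_num)]
    linarith
  have hx : 0 < 1 - 2 / (n : ℝ) := by linarith
  have hx1 : 1 - 2 / (n : ℝ) ≤ 1 := by
    have : 0 < 2 / (n : ℝ) := by positivity
    linarith
  have hbase : (1 / 2 - 1 / (n : ℝ)) = (1 / 2) * (1 - 2 / n) := by ring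
  have hpow : (1 / 2 : ℝ) ^ (n - s) * Real.exp (-4) ≤ (1 / 2 - 1 / (n : ℝ)) ^ (n - s) := by
    rw [hbase, mul_pow]
    apply mul_le_mul_of_nonneg_left _ (by positivity)
    exact (numC_exp n hn).trans (pow_le_pow_of_le_one hx.le hx1 (Nat.sub_le _ _))
  have hmain : (n : ℝ) ^ (ε / 2) ≤ (1 / 2 : ℝ) ^ (n - s) * N := by
    have h3 : (1 / 2 : ℝ) ^ (n - s) * (2 : ℝ) ^ n = 2 ^ s := by
      have h4 : (2 : ℝ) ^ n = 2 ^ (n - s) * 2 ^ s := by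
        rw [← pow_add, Nat.sub_add_cancel hsn]
      rw [h4, ← mul_assoc, ← mul_pow]
      norm_num
    have h5 : (n : ℝ) ^ (ε / 2) = (n : ℝ) ^ (1 - ε / 2) / (n : ℝ) ^ (1 - ε) := by
      rw [← Real.rpow_sub hn0]
      congr 1
      ring
    rw [h5]
    calc (n : ℝ) ^ (1 - ε / 2) / (n : ℝ) ^ (1 - ε) ≤ 2 ^ s / (n : ℝ) ^ (1 - ε) := by
          apply div_le_div_of_nonneg_right hsge
          positivity
      _ = (1 / 2 : ℝ) ^ (n - s) * ((2 : ℝ) ^ n / (n : ℝ) ^ (1 - ε)) := by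
          rw [← h3, mul_div_assoc]
      _ ≤ (1 / 2 : ℝ) ^ (n - s) * N := mul_le_mul_of_nonneg_left hN (by positivity)
  have hA : (1 / 16 : ℝ) * Real.exp (-4) * (n : ℝ) ^ (ε / 2) ≤
      (1 / 2 - η) * ((1 / 4 : ℝ) * (1 / 2 - 1 / (n : ℝ)) ^ (n - s) * N) := by
    have h3 : Real.exp (-4) * (n : ℝ) ^ (ε / 2) ≤ (1 / 2 - 1 / (n : ℝ)) ^ (n - s) * N := by
      calc Real.exp (-4) * (n : ℝ) ^ (ε / 2) ≤ Real.exp (-4) * ((1 / 2 : ℝ) ^ (n - s) * N) :=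
            mul_le_mul_of_nonneg_left hmain (Real.exp_pos _).le
        _ = (1 / 2 : ℝ) ^ (n - s) * Real.exp (-4) * N := by ring
        _ ≤ (1 / 2 - 1 / (n : ℝ)) ^ (n - s) * N := mul_le_mul_of_nonneg_right hpow hN0.le
    have h4 : 0 ≤ Real.exp (-4) * (n : ℝ) ^ (ε / 2) := by positivity
    have h6 : (1 / 4 : ℝ) * (1 / 4 * ((1 / 2 - 1 / (n : ℝ)) ^ (n - s) * N)) ≤
        (1 / 2 - η) * (1 / 4 * ((1 / 2 - 1 / (n : ℝ)) ^ (n - s) * N)) := by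
      apply mul_le_mul_of_nonneg_right (by linarith)
      linarith
    calc (1 / 16 : ℝ) * Real.exp (-4) * (n : ℝ) ^ (ε / 2)
        = (1 / 4 : ℝ) * (1 / 4 * (Real.exp (-4) * (n : ℝ) ^ (ε / 2))) := by ring
      _ ≤ (1 / 4 : ℝ) * (1 / 4 * ((1 / 2 - 1 / (n : ℝ)) ^ (n - s) * N)) := by linarith
      _ ≤ (1 / 2 - η) * (1 / 4 * ((1 / 2 - 1 / (n : ℝ)) ^ (n - s) * N)) := h6
      _ = (1 / 2 - η) * ((1 / 4 : ℝ) * (1 / 2 - 1 / (n : ℝ)) ^ (n - s) * N) := by ring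
  refine hw2.trans (le_trans ?_ hA)
  have he : Real.exp 4 * Real.exp (-4) = 1 := by
    rw [← Real.exp_add]
    norm_num
  have h7 := mul_le_mul_of_nonneg_left h1 (show (0 : ℝ) ≤ 1 / 16 * Real.exp (-4) by positivity)
  calc 2 * ((5 + (l : ℝ)) * (L + 1)) ^ 2
      = (Real.exp 4 * Real.exp (-4)) * (2 * ((5 + (l : ℝ)) * (L + 1)) ^ 2) := by rw [he, one_mul]
    _ = 1 / 16 * Real.exp (-4) * (32 * (5 + (l : ℝ)) ^ 2 * Real.exp 4 * (L + 1) ^ 2) := by ring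
    _ ≤ (1 / 16 : ℝ) * Real.exp (-4) * (n : ℝ) ^ (ε / 2) := h7

end Pool.Agent.SWP
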