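import Pool.Agent.SWP.NumB

/-!
# SWP-NumD: the two main inequalities

The expected number of good pairs of a defective column set: all factors are estimated by powers
of `n`.
-/

set_option autoImplicit false

open Filter

namespace Pool.Agent.SWP

private theorem nd_exp {x : ℝ} (hx : 0 ≤ x) (hx1 : x ≤ 1 / 2) : Real.exp (-(2 * x)) ≤ 1 - x := by
  rw [Real.exp_neg, inv_le_comm₀ (Real.exp_pos _) (by linarith)]
  have h1 := Real.add_one_le_exp (2 * x)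
  refine le_trans ?_ h1
  rw [inv_le_iff_one_le_mul₀ (by linarith)]
  nlinarith

private theorem nd_eta {ε η L w l x : ℝ} (hε : 0 < ε) (hε1 : ε ≤ 1) (hη : 0 < η)
    (hη2 : η * (5 + l) ≤ ε / 32) (hL0 : 0 ≤ L) (hL : L * Real.log 2 = Real.log x)
    (hw : w ≤ (5 + l) * (L + 1)) (hx : 1 ≤ x) :
    x ^ (-(ε / 4)) / 3 ≤ Real.exp (-(4 * η * w)) := by
  have hx0 : 0 < x := by linarith
  have h1 : 4 * η * w ≤ ε / 8 * (L + 1) := by
    have h2 : η * w ≤ η * ((5 + l) * (L + 1)) := mul_le_mul_of_nonneg_left hw hη.le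
    have h3 : η * (5 + l) * (L + 1) ≤ ε / 32 * (L + 1) :=
      mul_le_mul_of_nonneg_right hη2 (by linarith)
    nlinarith
  have h4 : L ≤ 2 * Real.log x := by
    have h5 := Real.log_two_gt_d9
    rw [← hL]
    nlinarith
  have h6 : 4 * η * w ≤ ε / 4 * Real.log x + 1 := by nlinarith
  have h7 : Real.exp (-(ε / 4 * Real.log x + 1)) ≤ Real.exp (-(4 * η * w)) :=
    Real.exp_le_exp.2 (by linarith)
  refine le_trans ?_ h7
  have h8 : Real.exp (-(ε / 4 * Real.log x + 1)) = x ^ (-(ε / 4)) * Real.exp (-1) := by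
    rw [Real.rpow_def_of_pos hx0, ← Real.exp_add]
    congr 1
    ring
  rw [h8, div_eq_mul_inv]
  have h9 : (3 : ℝ)⁻¹ ≤ Real.exp (-1) := by
    rw [Real.exp_neg]
    have h10 := Real.exp_one_lt_d9
    exact inv_anti₀ (Real.exp_pos 1) (by linarith)
  exact mul_le_mul_of_nonneg_left h9 (Real.rpow_nonneg hx0.le _)

private theorem nd_choose {n S l : ℕ} (h : 2 * (S + l) ≤ n) :
    ((n : ℝ) / 2) ^ l / (l.factorial : ℝ) ≤ ((n - S).choose l : ℝ) := by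
  have h1 := Nat.pow_le_choose (α := ℝ) l (n - S)
  refine le_trans ?_ h1
  have h2 : (n : ℝ) / 2 ≤ ((n - S + 1 - l : ℕ) : ℝ) := by
    have h3 : n ≤ 2 * (n - S + 1 - l) := by omega
    have h4 : (n : ℝ) ≤ 2 * ((n - S + 1 - l : ℕ) : ℝ) := by exact_mod_cast h3
    linarith
  exact div_le_div_of_nonneg_right (pow_le_pow_left₀ (by positivity) h2 l) (by positivity)

private theorem nd_pow {x ε : ℝ} (hx : 1 ≤ x) {l : ℕ} (hlε : 2 ≤ l * ε) :
    x ^ (3 * ε / 4) ≤ (x / x ^ (1 - ε / 2)) ^ l * x ^ (-(ε / 4)) / x ^ (1 - ε) := by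
  have hx0 : 0 < x := by linarith
  have h1 : x / x ^ (1 - ε / 2) = x ^ (ε / 2) := by
    have h2 : x / x ^ (1 - ε / 2) = x ^ (1 : ℝ) / x ^ (1 - ε / 2) := by rw [Real.rpow_one]
    rw [h2, ← Real.rpow_sub hx0]
    congr 1
    ring
  have h3 : x ^ (1 : ℝ) ≤ (x / x ^ (1 - ε / 2)) ^ l := by
    rw [h1, ← Real.rpow_natCast, ← Real.rpow_mul hx0.le]
    exact Real.rpow_le_rpow_of_exponent_le hx (by linarith)
  have h4 : x ^ (3 * ε / 4) = x ^ (1 : ℝ) * x ^ (-(ε / 4)) / x ^ (1 - ε) := by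
    rw [← Real.rpow_add hx0, ← Real.rpow_sub hx0]
    congr 1
    ring
  rw [h4]
  have h5 : 0 ≤ x ^ (-(ε / 4)) := Real.rpow_nonneg hx0.le _
  have h6 : 0 ≤ x ^ (1 - ε) := Real.rpow_nonneg hx0.le _
  exact div_le_div_of_nonneg_right (mul_le_mul_of_nonneg_right h3 h5) h6

theorem num4 (ε : ℝ) (hε : 0 < ε) (hε1 : ε ≤ 1) (l : ℕ) (hl : 1 ≤ l) (hlε : 2 ≤ l * ε) (η : ℝ)
    (hη : 0 < η) (hη' : η ≤ 1 / 4) (hη2 : η * (5 + l) ≤ ε / 32) :
    ∀ᶠ n : ℕ in atTop, ∀ N : ℝ, (2 : ℝ) ^ n / (n : ℝ) ^ (1 - ε) ≤ N →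
      (ps ε n : ℝ) ≤ (1 / 2 : ℝ) * (1 / 2 - η) ^ (pS n + l * ps ε n) *
        (((n - pS n).choose l : ℝ) / 2 ^ l * (N / (8 * 2 ^ (n - pS n)))) := by
  have hL1 := logb_pow_small (48 * 8 ^ l * (l.factorial : ℝ)) (3 * ε / 4) (by positivity) 1
  have hL2 := logb_small (4 + l) (1 / 2) (by norm_num)
  filter_upwards [hL1, hL2, eventually_ge_atTop 1] with n h1 h2 hn N hN
  have hx : (1 : ℝ) ≤ n := by exact_mod_cast hn
  have hx0 : (0 : ℝ) < n := by linarith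
  have hS := pS_le n hn
  have hs := ps_le ε hε hε1 n hn
  have hs2 := ps_pow_le ε hε hε1 n hn
  have hL0' : 0 ≤ Real.logb 2 n := Real.logb_nonneg (by norm_num) hx
  have hLlog' : Real.logb 2 n * Real.log 2 = Real.log n := by
    unfold Real.logb
    exact div_mul_cancel₀ _ (Real.log_pos (by norm_num)).ne'
  obtain ⟨L, hL⟩ : ∃ L, L = Real.logb 2 n := ⟨_, rfl⟩
  rw [← hL] at h1 h2 hS hs hL0' hLlog'
  obtain ⟨S, hSd⟩ : ∃ S, S = pS n := ⟨_, rfl⟩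
  obtain ⟨s, hsd⟩ : ∃ s, s = ps ε n := ⟨_, rfl⟩
  rw [← hSd] at hS ⊢
  rw [← hsd] at hs hs2 ⊢
  have hl0 : (0 : ℝ) ≤ l := Nat.cast_nonneg _
  have hSl : 2 * ((S : ℝ) + l) ≤ n := by nlinarith
  have hSln : 2 * (S + l) ≤ n := by exact_mod_cast hSl
  have hSn : S ≤ n := by omega
  -- the factors
  obtain ⟨X, hX⟩ : ∃ X : ℝ, X = (n : ℝ) ^ (1 - ε / 2) := ⟨_, rfl⟩
  obtain ⟨Y, hY⟩ : ∃ Y : ℝ, Y = (n : ℝ) ^ (-(ε / 4)) := ⟨_, rfl⟩
  obtain ⟨Z, hZ⟩ : ∃ Z : ℝ, Z = (n : ℝ) ^ (1 - ε) := ⟨_, rfl⟩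
  have hX0 : 0 < X := by rw [hX]; exact Real.rpow_pos_of_pos hx0 _
  have hY0 : 0 < Y := by rw [hY]; exact Real.rpow_pos_of_pos hx0 _
  have hZ0 : 0 < Z := by rw [hZ]; exact Real.rpow_pos_of_pos hx0 _
  rw [← hX] at hs2
  rw [← hZ] at hN
  have hA1 : 2 ^ S / (8 * Z) ≤ N / (8 * 2 ^ (n - S)) := by
    rw [div_le_div_iff₀ (by positivity) (by positivity)]
    rw [div_le_iff₀ hZ0] at hN
    have e1 : (2 : ℝ) ^ n = 2 ^ S * 2 ^ (n - S) := by
      rw [← pow_add, Nat.add_sub_cancel' hSn]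
    rw [e1] at hN
    nlinarith
  have hA2 := nd_choose hSln
  have hw : ((S + l * s : ℕ) : ℝ) ≤ (5 + l) * (L + 1) := by
    push_cast
    have e1 : (l : ℝ) * s ≤ l * (L + 1) := mul_le_mul_of_nonneg_left hs hl0
    nlinarith
  have hA4 : Y / 3 ≤ (1 - 2 * η) ^ (S + l * s) := by
    rw [hY]
    refine (nd_eta hε hε1 hη hη2 hL0' hLlog' hw hx).trans ?_
    have e1 : Real.exp (-(4 * η * ((S + l * s : ℕ) : ℝ))) = Real.exp (-(2 * (2 * η))) ^ (S + l * s) := by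
      rw [← Real.exp_nat_mul]
      congr 1
      ring
    rw [e1]
    exact pow_le_pow_left₀ (Real.exp_pos _).le (nd_exp (by linarith) (by linarith)) _
  have hA5 : (1 / (2 * X)) ^ l ≤ ((1 / 2 : ℝ) ^ s) ^ l := by
    refine pow_le_pow_left₀ (by positivity) ?_ l
    rw [one_div_pow]
    exact one_div_le_one_div_of_le (by positivity) hs2
  have hA3 : (1 / 2 - η) ^ (S + l * s) =
      (1 / 2 : ℝ) ^ S * ((1 / 2 : ℝ) ^ s) ^ l * (1 - 2 * η) ^ (S + l * s) := by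
    have e1 : (1 / 2 - η) = (1 / 2 : ℝ) * (1 - 2 * η) := by ring
    rw [e1, mul_pow, pow_add (1 / 2 : ℝ), mul_comm l s, pow_mul]
  have hfact : (0 : ℝ) < (l.factorial : ℝ) := by exact_mod_cast l.factorial_pos
  have hpw := nd_pow hx hlε
  rw [← hX, ← hY, ← hZ] at hpw
  have hB1 : (1 / 2 : ℝ) ^ S * (1 / (2 * X)) ^ l * (Y / 3) ≤ (1 / 2 - η) ^ (S + l * s) := by
    rw [hA3]
    refine mul_le_mul (mul_le_mul_of_nonneg_left hA5 (by positivity)) hA4 (by positivity)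
      (by positivity)
  have hB2 : ((n : ℝ) / 2) ^ l / (l.factorial : ℝ) / 2 ^ l * (2 ^ S / (8 * Z)) ≤
      ((n - S).choose l : ℝ) / 2 ^ l * (N / (8 * 2 ^ (n - S))) :=
    mul_le_mul (div_le_div_of_nonneg_right hA2 (by positivity)) hA1 (by positivity)
      (by positivity)
  have hB3 : (1 / 2 : ℝ) * ((1 / 2 : ℝ) ^ S * (1 / (2 * X)) ^ l * (Y / 3)) *
      (((n : ℝ) / 2) ^ l / (l.factorial : ℝ) / 2 ^ l * (2 ^ S / (8 * Z))) ≤
      (1 / 2 : ℝ) * (1 / 2 - η) ^ (S + l * s) *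
        (((n - S).choose l : ℝ) / 2 ^ l * (N / (8 * 2 ^ (n - S)))) := by
    have hnn : (0 : ℝ) ≤ (1 / 2 - η) ^ (S + l * s) := pow_nonneg (by linarith) _
    exact mul_le_mul (mul_le_mul_of_nonneg_left hB1 (by norm_num)) hB2 (by positivity)
      (mul_nonneg (by norm_num) hnn)
  refine le_trans ?_ hB3
  have e1 : (1 / 2 : ℝ) * ((1 / 2 : ℝ) ^ S * (1 / (2 * X)) ^ l * (Y / 3)) *
      (((n : ℝ) / 2) ^ l / (l.factorial : ℝ) / 2 ^ l * (2 ^ S / (8 * Z))) =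
      ((n / X) ^ l * Y / Z) / (48 * 8 ^ l * (l.factorial : ℝ)) := by
    have e3 : (8 : ℝ) ^ l = 2 ^ l * 2 ^ l * 2 ^ l := by
      rw [← mul_pow, ← mul_pow]; norm_num
    have e4 : (1 / 2 : ℝ) ^ S = 1 / 2 ^ S := one_div_pow _ _
    have e5 : (1 / (2 * X)) ^ l = 1 / (2 ^ l * X ^ l) := by rw [one_div_pow, mul_pow]
    rw [e3, e4, e5, div_pow (n : ℝ) 2, div_pow (n : ℝ) X]
    field_simp
    ring
  rw [e1, le_div_iff₀ (by positivity)]
  refine le_trans ?_ hpw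
  refine le_trans ?_ h1
  rw [pow_one, mul_comm]
  exact mul_le_mul_of_nonneg_left hs (by positivity)

end Pool.Agent.SWP
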