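import Pool.Agent.SWP.Core
import Pool.Agent.SWP.NumA
import Pool.Agent.SWP.NumC
import Pool.Agent.SWP.NumD

/-!
# SWP-Fin: the theorem for relations
-/

set_option autoImplicit false

open Finset Filter

namespace Pool.Agent.SWP

open Classical in
private theorem majority {N : ℕ} (R R' : Fin N → Fin N → Prop) (hRR : ∀ x y, R' x y ↔ ¬ R x y) :
    (N : ℝ) ^ 2 / 2 ≤ ∑ y : Fin N, ((univ.filter (fun x : Fin N => R x y)).card : ℝ) ∨
    (N : ℝ) ^ 2 / 2 ≤ ∑ y : Fin N, ((univ.filter (fun x : Fin N => R' x y)).card : ℝ) := by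
  by_contra hcon
  push Not at hcon
  have h1 : ∑ y : Fin N, ((univ.filter (fun x : Fin N => R x y)).card : ℝ) +
      ∑ y : Fin N, ((univ.filter (fun x : Fin N => R' x y)).card : ℝ) = (N : ℝ) ^ 2 := by
    rw [← Finset.sum_add_distrib]
    have h2 : ∀ y : Fin N, ((univ.filter (fun x : Fin N => R x y)).card : ℝ) +
        ((univ.filter (fun x : Fin N => R' x y)).card : ℝ) = N := by
      intro y
      have h3 := Finset.card_filter_add_card_filter_not (s := (univ : Finset (Fin N)))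
        (fun x => R x y)
      have h4 : univ.filter (fun x : Fin N => R' x y) = univ.filter (fun x : Fin N => ¬ R x y) :=
        Finset.filter_congr fun x _ => hRR x y
      rw [Finset.card_univ, Fintype.card_fin, ← h4] at h3
      exact_mod_cast h3
    rw [Finset.sum_congr rfl fun y _ => h2 y, Finset.sum_const, Finset.card_univ,
      Fintype.card_fin, nsmul_eq_mul]
    ring
  linarith [hcon.1, hcon.2]

theorem main_rel (ε : ℝ) (hε : 0 < ε) (hε1 : ε ≤ 1) : ∀ᶠ n : ℕ in atTop, ∀ N : ℕ,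
    (2 : ℝ) ^ n / (n : ℝ) ^ (1 - ε) ≤ N → ∀ R : Fin N → Fin N → Prop,
      Bic R n ∨ Bic (fun x y => ¬ R x y) n := by
  obtain ⟨l, hl⟩ : ∃ l : ℕ, l = ⌈2 / ε⌉₊ := ⟨_, rfl⟩
  have hl2 : 2 / ε ≤ l := hl ▸ Nat.le_ceil _
  have hlε : 2 ≤ (l : ℝ) * ε := by rwa [div_le_iff₀ hε] at hl2
  have hl1 : 1 ≤ l := by
    rcases Nat.eq_zero_or_pos l with h | h
    · rw [h] at hlε
      norm_num at hlε
    · exact h
  have h5l : (0 : ℝ) < 5 + l := by positivity
  obtain ⟨η, hη⟩ : ∃ η : ℝ, η = ε / (32 * (5 + l)) := ⟨_, rfl⟩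
  have hη0 : 0 < η := by rw [hη]; positivity
  have hη2 : η * (5 + l) ≤ ε / 32 := by
    rw [hη]
    apply le_of_eq
    field_simp
  have hη4 : η ≤ 1 / 4 := by
    have : η * 5 ≤ η * (5 + l) := by
      apply mul_le_mul_of_nonneg_left _ hη0.le
      have : (0 : ℝ) ≤ l := Nat.cast_nonneg l
      linarith
    linarith
  filter_upwards [num1 l, num2 η hη0, num3 ε hε hε1 l η hη0 hη4,
    num4 ε hε hε1 l hl1 hlε η hη0 hη4 hη2, logb_small 16 1 one_pos, eventually_ge_atTop 4,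
    eventually_ge_atTop (2 * l), eventually_ge_atTop (64 * 2 ^ l)] with n hn1 hn2 hn3 hn4 hlog
    hn4' hnl hn64 N hN R
  have hnpos : (0 : ℝ) < n := by
    have : 0 < n := by omega
    exact_mod_cast this
  have hn1' : (1 : ℝ) ≤ n := by
    have : 1 ≤ n := by omega
    exact_mod_cast this
  have hNn : (2 : ℝ) ^ n / n ≤ N := by
    refine le_trans ?_ hN
    apply div_le_div_of_nonneg_left (by positivity) (by positivity)
    calc (n : ℝ) ^ (1 - ε) ≤ (n : ℝ) ^ (1 : ℝ) :=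
          Real.rpow_le_rpow_of_exponent_le hn1' (by linarith)
      _ = n := Real.rpow_one _
  have hSle : (pS n : ℝ) ≤ 4 * Real.logb 2 n + 1 := pS_le n (by omega)
  have hsle : (ps ε n : ℝ) ≤ Real.logb 2 n + 1 := ps_le ε hε hε1 n (by omega)
  have hlog0 : 0 ≤ Real.logb 2 n := Real.logb_nonneg (by norm_num) hn1'
  have hS4 : 4 * pS n ≤ n := by
    have : (4 : ℝ) * pS n ≤ n := by linarith
    exact_mod_cast this
  have hsn : ps ε n ≤ n := by
    have : (ps ε n : ℝ) ≤ n := by linarith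
    exact_mod_cast this
  have hSge := pS_ge n (by omega)
  by_contra hcon
  rw [not_or] at hcon
  obtain ⟨hR, hR'⟩ := hcon
  have hR'' : ¬ Bic (fun x y => ¬ ¬ R x y) n := by
    simpa only [not_not] using hR
  have ha1 : ((n - pS n : ℕ) : ℝ) ≤ n := by exact_mod_cast Nat.sub_le _ _
  have hbad : (((n - pS n) * (l * ((n - pS n) + 1) ^ l) : ℕ) : ℝ) * (8 * n * (3 / 2 : ℝ) ^ n) +
      2 * ((n - pS n : ℕ) : ℝ) ^ 2 ≤ (N : ℝ) / 2 := by
    have h1 : (((n - pS n) * (l * ((n - pS n) + 1) ^ l) : ℕ) : ℝ) ≤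
        ((n * (l * (n + 1) ^ l) : ℕ) : ℝ) := by
      have h2 : (n - pS n) * (l * ((n - pS n) + 1) ^ l) ≤ n * (l * (n + 1) ^ l) := by
        have h3 : n - pS n ≤ n := Nat.sub_le _ _
        gcongr
      exact_mod_cast h2
    have h4 : ((n - pS n : ℕ) : ℝ) ^ 2 ≤ (n : ℝ) ^ 2 :=
      pow_le_pow_left₀ (Nat.cast_nonneg _) ha1 2
    have h5 : (((n - pS n) * (l * ((n - pS n) + 1) ^ l) : ℕ) : ℝ) * (8 * n * (3 / 2 : ℝ) ^ n) ≤
        ((n * (l * (n + 1) ^ l) : ℕ) : ℝ) * (8 * n * (3 / 2 : ℝ) ^ n) :=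
      mul_le_mul_of_nonneg_right h1 (by positivity)
    linarith
  have h1 : 8 * (n : ℝ) ^ 2 * 2 ^ l ≤ (N : ℝ) / (8 * 2 ^ (n - pS n)) := by
    have h2 : (2 : ℝ) ^ n = 2 ^ (n - pS n) * 2 ^ pS n := by
      rw [← pow_add]
      congr 1
      omega
    rw [le_div_iff₀ (by positivity)]
    have h3 : (2 : ℝ) ^ n ≤ (N : ℝ) * n := by rwa [div_le_iff₀ hnpos] at hNn
    have h4 : (64 : ℝ) * 2 ^ l ≤ n := by exact_mod_cast hn64
    have h5 : (2 : ℝ) ^ (n - pS n) * (n : ℝ) ^ 4 ≤ (N : ℝ) * n := by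
      refine le_trans ?_ h3
      rw [h2]
      exact mul_le_mul_of_nonneg_left hSge (by positivity)
    have h6 : (2 : ℝ) ^ (n - pS n) * (n : ℝ) ^ 3 ≤ N := by
      have h7 : ((2 : ℝ) ^ (n - pS n) * (n : ℝ) ^ 3) * n ≤ (N : ℝ) * n := by
        calc ((2 : ℝ) ^ (n - pS n) * (n : ℝ) ^ 3) * (n : ℝ) =
              2 ^ (n - pS n) * (n : ℝ) ^ 4 := by ring
          _ ≤ (N : ℝ) * n := h5
      exact le_of_mul_le_mul_right h7 hnpos
    calc 8 * (n : ℝ) ^ 2 * 2 ^ l * (8 * 2 ^ (n - pS n))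
        = (2 : ℝ) ^ (n - pS n) * (n : ℝ) ^ 2 * (64 * 2 ^ l) := by ring
      _ ≤ (2 : ℝ) ^ (n - pS n) * (n : ℝ) ^ 2 * n :=
          mul_le_mul_of_nonneg_left h4 (by positivity)
      _ = (2 : ℝ) ^ (n - pS n) * (n : ℝ) ^ 3 := by ring
      _ ≤ N := h6
  have h2 : 2 * (n : ℝ) / (1 / 2 + η) ^ n + ((n - pS n : ℕ) : ℝ) ≤ (N : ℝ) / (2 * n) := by
    have h3 : ((2 : ℝ) ^ n / n) / (2 * n) ≤ (N : ℝ) / (2 * n) :=
      div_le_div_of_nonneg_right hNn (by positivity)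
    linarith
  have hw : n + l * ps ε n ≤ (n - pS n) + (pS n + l * ps ε n) := by omega
  rcases majority R (fun x y => ¬ R x y) (fun _ _ => Iff.rfl) with h | h
  · exact core R N n l (n - pS n) (n - ps ε n) (ps ε n) (pS n + l * ps ε n) η
      (Fintype.card_fin N) (Fintype.card_fin N) h hR hR' hn4' (by omega) (Nat.sub_le _ _) hl1
      (by omega) hη0 hη4 (by omega) hw hbad h1 h2 (hn3 N hN) (hn4 N hN)
  · exact core (fun x y => ¬ R x y) N n l (n - pS n) (n - ps ε n) (ps ε n)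
      (pS n + l * ps ε n) η (Fintype.card_fin N) (Fintype.card_fin N) h hR' hR'' hn4' (by omega)
      (Nat.sub_le _ _) hl1 (by omega) hη0 hη4 (by omega) hw hbad h1 h2 (hn3 N hN) (hn4 N hN)

end Pool.Agent.SWP
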