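import Pool.Agent.SWP.Few

/-!
# SWP-Good: existence of a good tuple of rows (double counting)
-/

set_option autoImplicit false

open Finset

namespace Pool.Agent.SWP

private lemma upd_sum {X : Type} [Fintype X] {a : ℕ} (i : Fin a) (f : (Fin a → X) → ℝ) :
    ∑ A, ∑ x, f (Function.update A i x) = (Fintype.card X : ℝ) * ∑ A, f A := by
  classical
  have h1 : ∑ z : (Fin a → X) × X, f (Function.update z.1 i z.2) =
      ∑ z : (Fin a → X) × X, f z.1 := by
    refine Fintype.sum_bijective
      (fun z : (Fin a → X) × X => (Function.update z.1 i z.2, z.1 i)) ?_ _ _ (fun z => rfl)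
    refine Function.Involutive.bijective (fun z => ?_)
    simp
  rw [Fintype.sum_prod_type, Fintype.sum_prod_type] at h1
  rw [h1, Finset.mul_sum]
  refine Finset.sum_congr rfl fun A _ => ?_
  change ∑ _x : X, f A = _
  rw [Finset.sum_const, Finset.card_univ, nsmul_eq_mul]

private lemma swap_sum {X : Type} [Fintype X] {a : ℕ} (i : Fin a) (F G : (Fin a → X) → ℝ)
    (hG0 : ∀ A, 0 ≤ G A) (hFG : ∀ A, F A ≤ G A) (hG : ∀ A x, G (Function.update A i x) = G A)
    (P : (Fin a → X) → Prop) [DecidablePred P] (M : ℝ)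
    (hM : ∀ A, ((univ.filter (fun x : X => P (Function.update A i x))).card : ℝ) ≤ M) :
    (Fintype.card X : ℝ) * ∑ A, (if P A then F A else 0) ≤ M * ∑ A, G A := by
  have h0 : ∑ A, (if P A then F A else 0) ≤ ∑ A, (if P A then G A else 0) := by
    refine Finset.sum_le_sum fun A _ => ?_
    split_ifs
    · exact hFG A
    · exact le_rfl
  refine (mul_le_mul_of_nonneg_left h0 (Nat.cast_nonneg _)).trans ?_
  rw [← upd_sum i (fun A => if P A then G A else 0), Finset.mul_sum]
  refine Finset.sum_le_sum fun A _ => ?_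
  have h1 : ∑ x, (if P (Function.update A i x) then G (Function.update A i x) else 0) =
      ((univ.filter (fun x : X => P (Function.update A i x))).card : ℝ) * G A := by
    rw [← Finset.sum_filter, Finset.sum_congr rfl (fun x _ => hG A x), Finset.sum_const,
      nsmul_eq_mul]
  rw [h1]
  exact mul_le_mul_of_nonneg_right (hM A) (hG0 A)

private lemma mem_pt0 {X Y : Type} (R : X → Y → Prop) (H : Finset Y) {a : ℕ} (A : Fin a → X)
    (y : Y) : y ∈ pt R H A ∅ ↔ y ∈ H ∧ ∀ j, R (A j) y := by
  classical
  unfold pt df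
  rw [Finset.mem_filter, Finset.filter_eq_empty_iff]
  simp

open Classical in
private lemma card_pt0 {X Y : Type} (R : X → Y → Prop) (H : Finset Y) {a : ℕ} (A : Fin a → X) :
    ((pt R H A ∅).card : ℝ) = ∑ y ∈ H, (if ∀ j, R (A j) y then (1 : ℝ) else 0) := by
  rw [Finset.sum_boole]
  congr 2
  ext y
  rw [mem_pt0, Finset.mem_filter]

open Classical in
private lemma sum_pt0 {X Y : Type} [Fintype X] (R : X → Y → Prop) (H : Finset Y) (a : ℕ) :
    ∑ A : Fin a → X, ((pt R H A ∅).card : ℝ) =
      ∑ y ∈ H, ((univ.filter (fun x : X => R x y)).card : ℝ) ^ a := by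
  simp only [card_pt0]
  rw [Finset.sum_comm]
  refine Finset.sum_congr rfl fun y _ => ?_
  rw [Finset.sum_boole]
  have h1 : univ.filter (fun A : Fin a → X => ∀ j, R (A j) y) =
      Fintype.piFinset (fun _ : Fin a => univ.filter (fun x : X => R x y)) := by
    ext A
    simp [Fintype.mem_piFinset]
  rw [h1, Fintype.card_piFinset, Finset.prod_const, Finset.card_univ, Fintype.card_fin]
  push_cast
  rfl

open Classical in
private lemma sum_g {X Y : Type} [Fintype X] (R : X → Y → Prop) (H : Finset Y) {a : ℕ} (i : Fin a)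
    (hdeg : ∀ y ∈ H, (Fintype.card X : ℝ) / 4 ≤ ((univ.filter (fun x : X => R x y)).card : ℝ))
    (hN : 0 < Fintype.card X) :
    ∑ A : Fin a → X, ∑ y ∈ H, (if ∀ j, j ≠ i → R (A j) y then (1 : ℝ) else 0) ≤
      4 * ∑ A : Fin a → X, ((pt R H A ∅).card : ℝ) := by
  simp only [card_pt0]
  rw [Finset.sum_comm, Finset.sum_comm (s := univ) (t := H), Finset.mul_sum]
  refine Finset.sum_le_sum fun y hy => ?_
  have h1 := upd_sum i (fun A : Fin a → X => if ∀ j, R (A j) y then (1 : ℝ) else 0)
  have h2 : ∀ A : Fin a → X, ∑ x, (if ∀ j, R (Function.update A i x j) y then (1 : ℝ) else 0) =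
      (if ∀ j, j ≠ i → R (A j) y then (1 : ℝ) else 0) *
        ((univ.filter (fun x : X => R x y)).card : ℝ) := by
    intro A
    have h3 : ∀ x, (∀ j, R (Function.update A i x j) y) ↔
        ((∀ j, j ≠ i → R (A j) y) ∧ R x y) := by
      intro x
      constructor
      · intro h
        refine ⟨fun j hj => ?_, ?_⟩
        · have := h j
          rwa [Function.update_of_ne hj] at this
        · have := h i
          rwa [Function.update_self] at this
      · rintro ⟨h, hx⟩ j
        by_cases hj : j = i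
        · rw [hj, Function.update_self]
          exact hx
        · rw [Function.update_of_ne hj]
          exact h j hj
    simp only [h3]
    by_cases h : ∀ j, j ≠ i → R (A j) y
    · rw [if_pos h, one_mul, ← Finset.sum_boole]
      refine Finset.sum_congr rfl fun x _ => ?_
      by_cases hx : R x y
      · rw [if_pos hx, if_pos ⟨h, hx⟩]
      · rw [if_neg hx, if_neg fun h' => hx h'.2]
    · rw [if_neg h, zero_mul]
      refine Finset.sum_eq_zero fun x _ => ?_
      rw [if_neg fun h' => h h'.1]
  simp only [h2] at h1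
  rw [← Finset.sum_mul] at h1
  have hd := hdeg y hy
  have hN' : (0 : ℝ) < Fintype.card X := by exact_mod_cast hN
  have hs0 : 0 ≤ ∑ A : Fin a → X, (if ∀ j, j ≠ i → R (A j) y then (1 : ℝ) else 0) :=
    Finset.sum_nonneg fun A _ => by split_ifs <;> norm_num
  have h4 := mul_le_mul_of_nonneg_left hd hs0
  rw [h1] at h4
  have h5 : (Fintype.card X : ℝ) *
      (∑ A : Fin a → X, (if ∀ j, j ≠ i → R (A j) y then (1 : ℝ) else 0)) ≤
      (Fintype.card X : ℝ) * (4 * ∑ A : Fin a → X, (if ∀ j, R (A j) y then (1 : ℝ) else 0)) := by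
    linarith
  exact le_of_mul_le_mul_left h5 hN'

private lemma count_J (a l : ℕ) :
    ((univ : Finset (Finset (Fin a))).filter (fun J => J.card < l)).card ≤ l * (a + 1) ^ l := by
  classical
  have h1 : (univ : Finset (Finset (Fin a))).filter (fun J => J.card < l) ⊆
      (range l).biUnion (fun k => powersetCard k (univ : Finset (Fin a))) := by
    intro J hJ
    rw [Finset.mem_filter] at hJ
    rw [Finset.mem_biUnion]
    exact ⟨J.card, Finset.mem_range.2 hJ.2, Finset.mem_powersetCard.2 ⟨Finset.subset_univ _, rfl⟩⟩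
  refine (Finset.card_le_card h1).trans (Finset.card_biUnion_le.trans ?_)
  refine (Finset.sum_le_card_nsmul _ _ ((a + 1) ^ l) ?_).trans ?_
  · intro k hk
    have hk' := Finset.mem_range.1 hk
    rw [Finset.card_powersetCard, Finset.card_univ, Fintype.card_fin]
    refine (Nat.choose_le_pow a k).trans ?_
    exact (Nat.pow_le_pow_left (Nat.le_succ a) k).trans
      (Nat.pow_le_pow_right (Nat.succ_pos a) hk'.le)
  · rw [Finset.card_range, smul_eq_mul]

private lemma count_pairs (a : ℕ) :
    2 * ((univ : Finset (Fin a × Fin a)).filter (fun p => p.1 < p.2)).card ≤ a ^ 2 := by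
  classical
  have h1 : ((univ : Finset (Fin a × Fin a)).filter (fun p => p.2 < p.1)).card =
      ((univ : Finset (Fin a × Fin a)).filter (fun p => p.1 < p.2)).card := by
    refine Finset.card_bij' (fun p _ => p.swap) (fun p _ => p.swap) ?_ ?_ ?_ ?_ <;>
      intro p hp <;> simp_all
  have h2 : Disjoint ((univ : Finset (Fin a × Fin a)).filter (fun p => p.1 < p.2))
      ((univ : Finset (Fin a × Fin a)).filter (fun p => p.2 < p.1)) := by
    rw [Finset.disjoint_filter]
    intro p _ h
    exact not_lt.2 h.le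
  have h3 := Finset.card_union_of_disjoint h2
  have h4 := Finset.card_le_univ (((univ : Finset (Fin a × Fin a)).filter (fun p => p.1 < p.2)) ∪
      ((univ : Finset (Fin a × Fin a)).filter (fun p => p.2 < p.1)))
  rw [h3, h1, Fintype.card_prod, Fintype.card_fin] at h4
  nlinarith

open Classical in
/-- the bad event at `(J, i)` -/
private def Bd {X Y : Type} (R : X → Y → Prop) (H : Finset Y) (n : ℕ) {a : ℕ}
    (q : Finset (Fin a) × Fin a) (A : Fin a → X) : Prop :=
  3 * n ^ 2 ≤ (pu R H A q.1 q.2).card ∧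
    2 * (pu R H A q.1 q.2).card ≤ 3 * (nb R (pu R H A q.1 q.2) (A q.2)).card

private lemma pu_update {X Y : Type} (R : X → Y → Prop) (H : Finset Y) {a : ℕ} (A : Fin a → X)
    (J : Finset (Fin a)) (i : Fin a) (x : X) : pu R H (Function.update A i x) J i = pu R H A J i := by
  classical
  unfold pu
  refine Finset.filter_congr fun y _ => ?_
  refine forall_congr' fun j => ?_
  refine imp_congr_right fun hj => ?_
  rw [Function.update_of_ne hj]

open Classical in
private lemma bd_count {X Y : Type} [Fintype X] (R : X → Y → Prop) (n : ℕ) (H : Finset Y)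
    (hno : ¬ Bic R n) {a : ℕ} (q : Finset (Fin a) × Fin a) (A : Fin a → X) :
    ((univ.filter (fun x : X => Bd R H n q (Function.update A q.2 x))).card : ℝ) ≤
      2 * n * (3 / 2 : ℝ) ^ n := by
  have hpos : (0 : ℝ) ≤ 2 * n * (3 / 2 : ℝ) ^ n := by positivity
  by_cases hU : 3 * n ^ 2 ≤ (pu R H A q.1 q.2).card
  · have hU' : (3 : ℝ) * (n : ℝ) ^ 2 ≤ (pu R H A q.1 q.2).card := by exact_mod_cast hU
    have h1 := few R n hno (pu R H A q.1 q.2) (2 / 3) (by norm_num) (by linarith)
    have h2 : (univ.filter (fun x : X => Bd R H n q (Function.update A q.2 x))).card ≤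
        (univ.filter (fun x : X => (2 / 3 : ℝ) * (pu R H A q.1 q.2).card ≤
          ((nb R (pu R H A q.1 q.2) x).card : ℝ))).card := by
      refine Finset.card_le_card fun x hx => ?_
      rw [Finset.mem_filter] at hx ⊢
      obtain ⟨-, -, h3⟩ := hx
      rw [pu_update, Function.update_self] at h3
      refine ⟨Finset.mem_univ _, ?_⟩
      have h4 : (2 : ℝ) * (pu R H A q.1 q.2).card ≤ 3 * (nb R (pu R H A q.1 q.2) x).card := by
        exact_mod_cast h3
      linarith
    have h2' : ((univ.filter (fun x : X => Bd R H n q (Function.update A q.2 x))).card : ℝ) ≤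
        ((univ.filter (fun x : X => (2 / 3 : ℝ) * (pu R H A q.1 q.2).card ≤
          ((nb R (pu R H A q.1 q.2) x).card : ℝ))).card : ℝ) := by exact_mod_cast h2
    refine h2'.trans ?_
    have h5 : (2 / 3 : ℝ) ^ n * (3 / 2 : ℝ) ^ n = 1 := by
      rw [← mul_pow]
      norm_num
    have h6 : (0 : ℝ) < (3 / 2 : ℝ) ^ n := by positivity
    have h7 := mul_le_mul_of_nonneg_right h1.le h6.le
    rw [mul_assoc, h5, mul_one] at h7
    exact h7
  · have h1 : univ.filter (fun x : X => Bd R H n q (Function.update A q.2 x)) = ∅ := by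
      rw [Finset.filter_eq_empty_iff]
      intro x _ h
      have h2 := h.1
      rw [pu_update] at h2
      exact hU h2
    rw [h1, Finset.card_empty, Nat.cast_zero]
    exact hpos

open Classical in
theorem good {X Y : Type} [Fintype X] (R : X → Y → Prop) (n l a : ℕ) (H : Finset Y)
    (hno : ¬ Bic R n)
    (hdeg : ∀ y ∈ H, (Fintype.card X : ℝ) / 4 ≤ ((univ.filter (fun x : X => R x y)).card : ℝ))
    (hN : 0 < Fintype.card X)
    (hbad : ((a * (l * (a + 1) ^ l) : ℕ) : ℝ) * (8 * n * (3 / 2 : ℝ) ^ n) + 2 * (a : ℝ) ^ 2 ≤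
      (Fintype.card X : ℝ) / 2) :
    ∃ A : Fin a → X, Function.Injective A ∧ Gd R H n l A ∧
      (1 / 2 : ℝ) * ∑ y ∈ H, (((univ.filter (fun x : X => R x y)).card : ℝ) / Fintype.card X) ^ a
        ≤ ((pt R H A ∅).card : ℝ) := by
  have hN' : (0 : ℝ) < Fintype.card X := by exact_mod_cast hN
  have hn0 : n ≠ 0 := by
    rintro rfl
    exact hno ⟨∅, ∅, rfl, rfl, by simp⟩
  rcases H.eq_empty_or_nonempty with hH | ⟨y0, hy0⟩
  · -- no columns
    have h1 : (a : ℝ) ≤ (Fintype.card X : ℝ) := by
      have h2 : (0 : ℝ) ≤ ((a * (l * (a + 1) ^ l) : ℕ) : ℝ) * (8 * n * (3 / 2 : ℝ) ^ n) := by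
        positivity
      rcases Nat.eq_zero_or_pos a with h0 | h0
      · rw [h0]
        simp
      · have h3 : (1 : ℝ) ≤ a := by exact_mod_cast h0
        nlinarith
    have h1' : a ≤ Fintype.card X := by exact_mod_cast h1
    obtain ⟨A⟩ : Nonempty (Fin a ↪ X) :=
      Function.Embedding.nonempty_of_card_le (by rw [Fintype.card_fin]; exact h1')
    refine ⟨A, A.injective, ?_, ?_⟩
    · intro J i _ _ h
      exfalso
      have h3 : pu R H (A : Fin a → X) J i = ∅ := by
        unfold pu
        rw [hH, Finset.filter_empty]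
      rw [h3, Finset.card_empty] at h
      have : 0 < n ^ 2 := by positivity
      omega
    · rw [hH, Finset.sum_empty, mul_zero]
      exact Nat.cast_nonneg _
  · -- the main case
    obtain ⟨W, hW⟩ : ∃ W : ℝ, W = ∑ A : Fin a → X, ((pt R H A ∅).card : ℝ) := ⟨_, rfl⟩
    have hWeq : W = ∑ y ∈ H, ((univ.filter (fun x : X => R x y)).card : ℝ) ^ a :=
      hW.trans (sum_pt0 R H a)
    have hWpos : 0 < W := by
      rw [hWeq]
      refine Finset.sum_pos (fun y hy => ?_) ⟨y0, hy0⟩
      have h1 := hdeg y hy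
      have h2 : (0 : ℝ) < ((univ.filter (fun x : X => R x y)).card : ℝ) := by linarith
      positivity
    have hrhs : (1 / 2 : ℝ) *
        ∑ y ∈ H, (((univ.filter (fun x : X => R x y)).card : ℝ) / Fintype.card X) ^ a =
        W / 2 / (Fintype.card X : ℝ) ^ a := by
      rw [hWeq]
      simp only [div_pow]
      rw [← Finset.sum_div]
      ring
    -- the function which ignores coordinate `i`
    have hFG : ∀ (i : Fin a) (A : Fin a → X), ((pt R H A ∅).card : ℝ) ≤
        ∑ y ∈ H, (if ∀ j, j ≠ i → R (A j) y then (1 : ℝ) else 0) := by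
      intro i A
      rw [card_pt0]
      refine Finset.sum_le_sum fun y _ => ?_
      by_cases h : ∀ j, R (A j) y
      · rw [if_pos h, if_pos fun j _ => h j]
      · rw [if_neg h]
        split_ifs <;> norm_num
    have hG0 : ∀ (i : Fin a) (A : Fin a → X),
        0 ≤ ∑ y ∈ H, (if ∀ j, j ≠ i → R (A j) y then (1 : ℝ) else 0) := fun i A =>
      Finset.sum_nonneg fun y _ => by split_ifs <;> norm_num
    have hGu : ∀ (i : Fin a) (A : Fin a → X) (x : X),
        ∑ y ∈ H, (if ∀ j, j ≠ i → R (Function.update A i x j) y then (1 : ℝ) else 0) =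
        ∑ y ∈ H, (if ∀ j, j ≠ i → R (A j) y then (1 : ℝ) else 0) := by
      intro i A x
      refine Finset.sum_congr rfl fun y _ => ?_
      have h1 : (∀ j, j ≠ i → R (Function.update A i x j) y) ↔ (∀ j, j ≠ i → R (A j) y) := by
        refine forall_congr' fun j => imp_congr_right fun hj => ?_
        rw [Function.update_of_ne hj]
      simp only [h1]
    -- (1)
    have hb1 : ∀ p : Fin a × Fin a, p.1 < p.2 →
        (Fintype.card X : ℝ) * ∑ A : Fin a → X,
          (if A p.1 = A p.2 then ((pt R H A ∅).card : ℝ) else 0) ≤ 4 * W := by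
      intro p hp
      have h1 := swap_sum p.1 (fun A : Fin a → X => ((pt R H A ∅).card : ℝ))
        (fun A => ∑ y ∈ H, (if ∀ j, j ≠ p.1 → R (A j) y then (1 : ℝ) else 0)) (hG0 p.1)
        (hFG p.1) (hGu p.1) (fun A => A p.1 = A p.2) 1 ?_
      · refine h1.trans ?_
        rw [one_mul, hW]
        exact sum_g R H p.1 hdeg hN
      · intro A
        have h2 : (univ.filter (fun x : X => Function.update A p.1 x p.1 =
            Function.update A p.1 x p.2)) ⊆ {A p.2} := by
          intro x hx
          rw [Finset.mem_filter, Function.update_self, Function.update_of_ne (ne_of_gt hp)] at hx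
          rw [Finset.mem_singleton]
          exact hx.2
        have h3 := Finset.card_le_card h2
        rw [Finset.card_singleton] at h3
        exact_mod_cast h3
    -- (2)
    have hb2 : ∀ q : Finset (Fin a) × Fin a,
        (Fintype.card X : ℝ) * ∑ A : Fin a → X,
          (if Bd R H n q A then ((pt R H A ∅).card : ℝ) else 0) ≤
          2 * n * (3 / 2 : ℝ) ^ n * (4 * W) := by
      intro q
      have h1 := swap_sum q.2 (fun A : Fin a → X => ((pt R H A ∅).card : ℝ))
        (fun A => ∑ y ∈ H, (if ∀ j, j ≠ q.2 → R (A j) y then (1 : ℝ) else 0)) (hG0 q.2)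
        (hFG q.2) (hGu q.2) (fun A => Bd R H n q A) (2 * n * (3 / 2 : ℝ) ^ n)
        (fun A => bd_count R n H hno q A)
      rw [hW]
      exact h1.trans (mul_le_mul_of_nonneg_left (sum_g R H q.2 hdeg hN) (by positivity))
    -- the bad tuples
    obtain ⟨Pr, hPr⟩ : ∃ Pr : Finset (Fin a × Fin a), Pr = univ.filter (fun p => p.1 < p.2) :=
      ⟨_, rfl⟩
    obtain ⟨JJ, hJJ⟩ : ∃ JJ : Finset (Finset (Fin a) × Fin a),
      JJ = (univ.filter (fun J : Finset (Fin a) => J.card < l)) ×ˢ univ := ⟨_, rfl⟩
    have hPrc : (2 : ℝ) * Pr.card ≤ (a : ℝ) ^ 2 := by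
      rw [hPr]
      exact_mod_cast count_pairs a
    have hJJc : (JJ.card : ℝ) ≤ ((a * (l * (a + 1) ^ l) : ℕ) : ℝ) := by
      rw [hJJ, Finset.card_product, Finset.card_univ, Fintype.card_fin, mul_comm]
      exact_mod_cast Nat.mul_le_mul_left a (count_J a l)
    have hF0 : ∀ A : Fin a → X, (0 : ℝ) ≤ ((pt R H A ∅).card : ℝ) := fun A => Nat.cast_nonneg _
    have hpt : ∀ A : Fin a → X,
        (if Function.Injective A ∧ Gd R H n l A then 0 else ((pt R H A ∅).card : ℝ)) ≤
        ∑ p ∈ Pr, (if A p.1 = A p.2 then ((pt R H A ∅).card : ℝ) else 0) +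
        ∑ q ∈ JJ, (if Bd R H n q A then ((pt R H A ∅).card : ℝ) else 0) := by
      intro A
      have hs1 : 0 ≤ ∑ p ∈ Pr, (if A p.1 = A p.2 then ((pt R H A ∅).card : ℝ) else 0) :=
        Finset.sum_nonneg fun p _ => by split_ifs <;> [exact hF0 A; exact le_rfl]
      have hs2 : 0 ≤ ∑ q ∈ JJ, (if Bd R H n q A then ((pt R H A ∅).card : ℝ) else 0) :=
        Finset.sum_nonneg fun p _ => by split_ifs <;> [exact hF0 A; exact le_rfl]
      by_cases hA : Function.Injective A ∧ Gd R H n l A
      · rw [if_pos hA]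
        linarith
      · rw [if_neg hA]
        by_cases hinj : Function.Injective A
        · have hgd : ¬ Gd R H n l A := fun h => hA ⟨hinj, h⟩
          unfold Gd at hgd
          push Not at hgd
          obtain ⟨J, i, -, hJ, h3, h4⟩ := hgd
          have h5 : (J, i) ∈ JJ := by
            rw [hJJ, Finset.mem_product, Finset.mem_filter]
            exact ⟨⟨Finset.mem_univ _, hJ⟩, Finset.mem_univ _⟩
          have h6 := Finset.single_le_sum
            (f := fun q => if Bd R H n q A then ((pt R H A ∅).card : ℝ) else 0)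
            (fun q _ => by
              change (0 : ℝ) ≤ if Bd R H n q A then ((pt R H A ∅).card : ℝ) else 0
              split_ifs <;> [exact hF0 A; exact le_rfl]) h5
          have h7 : Bd R H n (J, i) A := ⟨h3, h4⟩
          change (if Bd R H n (J, i) A then ((pt R H A ∅).card : ℝ) else 0) ≤ _ at h6
          rw [if_pos h7] at h6
          linarith
        · obtain ⟨i, j, hij, hne⟩ : ∃ i j, A i = A j ∧ i < j := by
            unfold Function.Injective at hinj
            push Not at hinj
            obtain ⟨i, j, hij, hne⟩ := hinj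
            rcases lt_or_gt_of_ne hne with h | h
            · exact ⟨i, j, hij, h⟩
            · exact ⟨j, i, hij.symm, h⟩
          have h5 : (i, j) ∈ Pr := by
            rw [hPr, Finset.mem_filter]
            exact ⟨Finset.mem_univ _, hne⟩
          have h6 := Finset.single_le_sum
            (f := fun p : Fin a × Fin a => if A p.1 = A p.2 then ((pt R H A ∅).card : ℝ) else 0)
            (fun p _ => by
              change (0 : ℝ) ≤ if A p.1 = A p.2 then ((pt R H A ∅).card : ℝ) else 0
              split_ifs <;> [exact hF0 A; exact le_rfl]) h5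
          change (if A i = A j then ((pt R H A ∅).card : ℝ) else 0) ≤ _ at h6
          rw [if_pos hij] at h6
          linarith
    have hsumbad : (Fintype.card X : ℝ) * ∑ A : Fin a → X,
        (if Function.Injective A ∧ Gd R H n l A then 0 else ((pt R H A ∅).card : ℝ)) ≤
        (Fintype.card X : ℝ) * (W / 2) := by
      have h1 : ∑ A : Fin a → X,
          (if Function.Injective A ∧ Gd R H n l A then 0 else ((pt R H A ∅).card : ℝ)) ≤
          ∑ p ∈ Pr, ∑ A : Fin a → X, (if A p.1 = A p.2 then ((pt R H A ∅).card : ℝ) else 0) +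
          ∑ q ∈ JJ, ∑ A : Fin a → X, (if Bd R H n q A then ((pt R H A ∅).card : ℝ) else 0) := by
        refine (Finset.sum_le_sum fun A _ => hpt A).trans ?_
        rw [Finset.sum_add_distrib, Finset.sum_comm, Finset.sum_comm (s := univ) (t := JJ)]
      have h2 : (Fintype.card X : ℝ) * ∑ p ∈ Pr, ∑ A : Fin a → X,
          (if A p.1 = A p.2 then ((pt R H A ∅).card : ℝ) else 0) ≤ Pr.card * (4 * W) := by
        rw [Finset.mul_sum, ← nsmul_eq_mul]
        refine Finset.sum_le_card_nsmul _ _ _ fun p hp => hb1 p ?_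
        rw [hPr, Finset.mem_filter] at hp
        exact hp.2
      have h3 : (Fintype.card X : ℝ) * ∑ q ∈ JJ, ∑ A : Fin a → X,
          (if Bd R H n q A then ((pt R H A ∅).card : ℝ) else 0) ≤
          JJ.card * (2 * n * (3 / 2 : ℝ) ^ n * (4 * W)) := by
        rw [Finset.mul_sum, ← nsmul_eq_mul]
        exact Finset.sum_le_card_nsmul _ _ _ fun q _ => hb2 q
      have h4 : (JJ.card : ℝ) * (2 * n * (3 / 2 : ℝ) ^ n * (4 * W)) ≤
          ((a * (l * (a + 1) ^ l) : ℕ) : ℝ) * (2 * n * (3 / 2 : ℝ) ^ n * (4 * W)) :=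
        mul_le_mul_of_nonneg_right hJJc (by positivity)
      have h5 : (Pr.card : ℝ) * (4 * W) ≤ 2 * (a : ℝ) ^ 2 * W := by nlinarith
      have h6 : (((a * (l * (a + 1) ^ l) : ℕ) : ℝ) * (8 * n * (3 / 2 : ℝ) ^ n) +
          2 * (a : ℝ) ^ 2) * W ≤ (Fintype.card X : ℝ) / 2 * W :=
        mul_le_mul_of_nonneg_right hbad hWpos.le
      have h7 := mul_le_mul_of_nonneg_left h1 hN'.le
      rw [mul_add] at h7
      nlinarith
    have hsumbad' := le_of_mul_le_mul_left hsumbad hN'
    by_contra hcon
    push Not at hcon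
    rw [hrhs] at hcon
    -- good tuples carry at least half
    have hsplit : W = ∑ A : Fin a → X,
        (if Function.Injective A ∧ Gd R H n l A then ((pt R H A ∅).card : ℝ) else 0) +
        ∑ A : Fin a → X,
        (if Function.Injective A ∧ Gd R H n l A then 0 else ((pt R H A ∅).card : ℝ)) := by
      rw [hW, ← Finset.sum_add_distrib]
      refine Finset.sum_congr rfl fun A _ => ?_
      split_ifs <;> simp
    have hgood : ∑ A : Fin a → X,
        (if Function.Injective A ∧ Gd R H n l A then ((pt R H A ∅).card : ℝ) else 0) <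
        ∑ A : Fin a → X, W / 2 / (Fintype.card X : ℝ) ^ a := by
      have hc0 : 0 < W / 2 / (Fintype.card X : ℝ) ^ a := by positivity
      have : Nonempty X := Fintype.card_pos_iff.1 hN
      refine Finset.sum_lt_sum_of_nonempty Finset.univ_nonempty fun A _ => ?_
      split_ifs with h
      · exact hcon A h.1 h.2
      · exact hc0
    rw [Finset.sum_const, Finset.card_univ, Fintype.card_fun, Fintype.card_fin, nsmul_eq_mul] at hgood
    have h1 : ((Fintype.card X ^ a : ℕ) : ℝ) * (W / 2 / (Fintype.card X : ℝ) ^ a) = W / 2 := by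
      push_cast
      field_simp
    rw [h1] at hgood
    linarith

end Pool.Agent.SWP
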