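import Pool.Agent.SWP.NumDefs

/-!
# SWP-NumB: bounds for the parameters (Mathlib only)

Ceilings and powers of the binary logarithm.
-/

set_option autoImplicit false

open Filter

namespace Pool.Agent.SWP

private theorem numb_rpow (c : ℝ) (n : ℕ) (hn : 1 ≤ n) :
    (2 : ℝ) ^ (c * Real.logb 2 n) = (n : ℝ) ^ c := by
  have h : (0 : ℝ) < n := by exact_mod_cast hn
  rw [mul_comm, Real.rpow_mul (by norm_num), Real.rpow_logb (by norm_num) (by norm_num) h]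

private theorem numb_logb_nonneg (n : ℕ) (hn : 1 ≤ n) : 0 ≤ Real.logb 2 n :=
  Real.logb_nonneg (by norm_num) (by exact_mod_cast hn)

theorem pS_ge (n : ℕ) (hn : 1 ≤ n) : (n : ℝ) ^ 4 ≤ 2 ^ pS n := by
  have h1 := numb_rpow 4 n hn
  have h2 : (n : ℝ) ^ (4 : ℝ) = (n : ℝ) ^ 4 := by
    rw [← Real.rpow_natCast]
    norm_num
  rw [← h2, ← h1, ← Real.rpow_natCast]
  exact Real.rpow_le_rpow_of_exponent_le (by norm_num) (Nat.le_ceil _)

theorem pS_le (n : ℕ) (hn : 1 ≤ n) : (pS n : ℝ) ≤ 4 * Real.logb 2 n + 1 :=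
  (Nat.ceil_lt_add_one (by have := numb_logb_nonneg n hn; positivity)).le

theorem ps_ge (ε : ℝ) (n : ℕ) (hn : 1 ≤ n) : (n : ℝ) ^ (1 - ε / 2) ≤ 2 ^ ps ε n := by
  rw [← numb_rpow (1 - ε / 2) n hn, ← Real.rpow_natCast]
  exact Real.rpow_le_rpow_of_exponent_le (by norm_num) (Nat.le_ceil _)

theorem ps_pow_le (ε : ℝ) (hε : 0 < ε) (hε1 : ε ≤ 1) (n : ℕ) (hn : 1 ≤ n) :
    (2 : ℝ) ^ ps ε n ≤ 2 * (n : ℝ) ^ (1 - ε / 2) := by
  have h0 : 0 ≤ (1 - ε / 2) * Real.logb 2 n :=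
    mul_nonneg (by linarith) (numb_logb_nonneg n hn)
  have h1 : (ps ε n : ℝ) ≤ (1 - ε / 2) * Real.logb 2 n + 1 := (Nat.ceil_lt_add_one h0).le
  rw [← numb_rpow (1 - ε / 2) n hn, ← Real.rpow_natCast]
  calc (2 : ℝ) ^ ((ps ε n : ℕ) : ℝ) ≤ 2 ^ ((1 - ε / 2) * Real.logb 2 n + 1) :=
        Real.rpow_le_rpow_of_exponent_le (by norm_num) h1
    _ = 2 * 2 ^ ((1 - ε / 2) * Real.logb 2 n) := by
        rw [Real.rpow_add (by norm_num), Real.rpow_one, mul_comm]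

theorem ps_le (ε : ℝ) (hε : 0 < ε) (hε1 : ε ≤ 1) (n : ℕ) (hn : 1 ≤ n) :
    (ps ε n : ℝ) ≤ Real.logb 2 n + 1 := by
  have hl := numb_logb_nonneg n hn
  have h0 : 0 ≤ (1 - ε / 2) * Real.logb 2 n := mul_nonneg (by linarith) hl
  have h1 : (ps ε n : ℝ) ≤ (1 - ε / 2) * Real.logb 2 n + 1 := (Nat.ceil_lt_add_one h0).le
  nlinarith

/-- powers of `log₂ n` are smaller than `n ^ c` -/
theorem logb_pow_small (C c : ℝ) (hc : 0 < c) (k : ℕ) : ∀ᶠ n : ℕ in atTop,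
    C * (Real.logb 2 n + 1) ^ k ≤ (n : ℝ) ^ c := by
  have hδ : 0 < c / (k + 1) := by positivity
  set δ : ℝ := c / (k + 1) with hd
  have e1 : ∀ᶠ n : ℕ in atTop, ‖Real.log (n : ℝ)‖ ≤ 1 / 3 * ‖(n : ℝ) ^ δ‖ :=
    tendsto_natCast_atTop_atTop.eventually
      ((isLittleO_log_rpow_atTop hδ).bound (show (0 : ℝ) < 1 / 3 by norm_num))
  have e2 : ∀ᶠ n : ℕ in atTop, 1 ≤ Real.log (n : ℝ) :=
    (Real.tendsto_log_atTop.comp tendsto_natCast_atTop_atTop).eventually_ge_atTop 1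
  have e3 : ∀ᶠ n : ℕ in atTop, C ≤ (n : ℝ) ^ δ :=
    ((tendsto_rpow_atTop hδ).comp tendsto_natCast_atTop_atTop).eventually_ge_atTop C
  filter_upwards [e1, e2, e3, eventually_ge_atTop 1] with n h1 h2 h3 h4
  have hn : (0 : ℝ) < n := by exact_mod_cast h4
  have hp : 0 < (n : ℝ) ^ δ := Real.rpow_pos_of_pos hn δ
  rw [Real.norm_of_nonneg (by linarith), Real.norm_of_nonneg hp.le] at h1
  have hl2 : (1 : ℝ) / 2 ≤ Real.log 2 := by
    have := Real.log_two_gt_d9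
    linarith
  have h5 : Real.logb 2 n ≤ 2 * Real.log n := by
    rw [Real.logb, div_le_iff₀ (by linarith)]
    nlinarith
  have h6 : Real.logb 2 n + 1 ≤ (n : ℝ) ^ δ := by linarith
  have h7 : 0 ≤ Real.logb 2 n + 1 := by
    have := numb_logb_nonneg n h4
    linarith
  have h8 : (Real.logb 2 n + 1) ^ k ≤ ((n : ℝ) ^ δ) ^ k := pow_le_pow_left₀ h7 h6 k
  have h9 : ((n : ℝ) ^ δ) ^ (k + 1) = (n : ℝ) ^ c := by
    rw [← Real.rpow_natCast, ← Real.rpow_mul hn.le, hd]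
    congr 1
    push_cast
    field_simp
  calc C * (Real.logb 2 n + 1) ^ k ≤ (n : ℝ) ^ δ * (Real.logb 2 n + 1) ^ k :=
        mul_le_mul_of_nonneg_right h3 (pow_nonneg h7 k)
    _ ≤ (n : ℝ) ^ δ * ((n : ℝ) ^ δ) ^ k := mul_le_mul_of_nonneg_left h8 hp.le
    _ = (n : ℝ) ^ c := by rw [← h9, pow_succ, mul_comm]

/-- `log₂ n` is small -/
theorem logb_small (C c : ℝ) (hc : 0 < c) : ∀ᶠ n : ℕ in atTop, C * (Real.logb 2 n + 1) ≤ c * n := by
  filter_upwards [logb_pow_small (C / c) 1 one_pos 1] with n h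
  rw [pow_one, Real.rpow_one] at h
  have h1 := mul_le_mul_of_nonneg_left h hc.le
  have h2 : c * (C / c * (Real.logb 2 n + 1)) = C * (Real.logb 2 n + 1) := by
    field_simp
  rw [h2] at h1
  exact h1

end Pool.Agent.SWP
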