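import Mathlib

/-! # SWP: parameters -/

set_option autoImplicit false

namespace Pool.Agent.SWP

/-- `S = ⌈4 log₂ n⌉` -/
noncomputable def pS (n : ℕ) : ℕ := ⌈4 * Real.logb 2 n⌉₊

/-- `s = ⌈(1 - ε/2) log₂ n⌉` -/
noncomputable def ps (ε : ℝ) (n : ℕ) : ℕ := ⌈(1 - ε / 2) * Real.logb 2 n⌉₊

end Pool.Agent.SWP
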