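import Mathlib

/-!
# SWP-Pow: heavy elements (Mathlib only)
-/

set_option autoImplicit false

open Finset

namespace Pool.Agent.SWP

private theorem quarter {n : ℕ} (hn : 2 ≤ n) {u : ℝ} (h1 : -1 ≤ u) (h2 : -1 ≤ (n : ℝ) * u) :
    1 / 4 ≤ (1 + u) ^ n := by
  have hn' : (2 : ℝ) ≤ n := by exact_mod_cast hn
  have hb := one_add_mul_self_le_rpow_one_add h1 (show (1 : ℝ) ≤ (n : ℝ) / 2 by linarith)
  have h3 : (1 : ℝ) / 2 ≤ (1 + u) ^ ((n : ℝ) / 2) := by nlinarith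
  have h4 : (1 + u) ^ n = ((1 + u) ^ ((n : ℝ) / 2)) ^ 2 := by
    rw [← Real.rpow_natCast ((1 + u) ^ ((n : ℝ) / 2)) 2, ← Real.rpow_mul (by linarith),
      ← Real.rpow_natCast]
    congr 1
    push_cast
    ring
  rw [h4]
  nlinarith

private theorem point {n a : ℕ} (hn : 2 ≤ n) (ha : n ≤ 4 * a) (ha' : a ≤ n) {d : ℝ} (h0 : 0 ≤ d) :
    1 + (n : ℝ) * (2 * d - 1) ≤
      4 * 2 ^ a * (if 1 / 2 - 1 / (2 * (n : ℝ)) ≤ d then d ^ a else 0) := by
  have hn' : (0 : ℝ) < n := by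
    have : (2 : ℝ) ≤ n := by exact_mod_cast hn
    linarith
  have han : (n : ℝ) ≤ 4 * a := by exact_mod_cast ha
  have hpow : (2 : ℝ) ^ a * d ^ a = (1 + (2 * d - 1)) ^ a := by
    rw [← mul_pow]
    congr 1
    ring
  split_ifs with hc
  · have h5 : -1 ≤ (n : ℝ) * (2 * d - 1) := by
      have : (n : ℝ) * (1 / 2 - 1 / (2 * (n : ℝ))) ≤ n * d := mul_le_mul_of_nonneg_left hc hn'.le
      have h6 : (n : ℝ) * (1 / 2 - 1 / (2 * (n : ℝ))) = n / 2 - 1 / 2 := by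
        field_simp
      nlinarith
    rw [mul_assoc, hpow]
    rcases le_total 0 (2 * d - 1) with hu | hu
    · have h7 := one_add_mul_le_pow (a := 2 * d - 1) (by linarith) a
      nlinarith [mul_nonneg (sub_nonneg.2 han) hu]
    · have h8 := quarter hn (u := 2 * d - 1) (by linarith) h5
      have h9 : (1 + (2 * d - 1)) ^ n ≤ (1 + (2 * d - 1)) ^ a :=
        pow_le_pow_of_le_one (by linarith) (by linarith) ha'
      have h10 : (n : ℝ) * (2 * d - 1) ≤ 0 := mul_nonpos_of_nonneg_of_nonpos hn'.le hu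
      linarith
  · have h5 : (n : ℝ) * (2 * d - 1) ≤ -1 := by
      have hc' : d ≤ 1 / 2 - 1 / (2 * (n : ℝ)) := (not_le.1 hc).le
      have : (n : ℝ) * d ≤ n * (1 / 2 - 1 / (2 * (n : ℝ))) := mul_le_mul_of_nonneg_left hc' hn'.le
      have h6 : (n : ℝ) * (1 / 2 - 1 / (2 * (n : ℝ))) = n / 2 - 1 / 2 := by
        field_simp
      nlinarith
    rw [mul_zero]
    linarith

open Classical in
theorem heavy {ι : Type} (s : Finset ι) (d : ι → ℝ) (h0 : ∀ i ∈ s, 0 ≤ d i)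
    (hsum : (s.card : ℝ) / 2 ≤ ∑ i ∈ s, d i) (n a : ℕ) (hn : 2 ≤ n) (ha : n ≤ 4 * a)
    (ha' : a ≤ n) :
    (s.card : ℝ) / (4 * 2 ^ a) ≤
      ∑ i ∈ s.filter (fun i => 1 / 2 - 1 / (2 * (n : ℝ)) ≤ d i), d i ^ a := by
  rw [Finset.sum_filter, div_le_iff₀ (by positivity)]
  have h1 : ∑ i ∈ s, (1 + (n : ℝ) * (2 * d i - 1)) ≤ ∑ i ∈ s,
      4 * 2 ^ a * (if 1 / 2 - 1 / (2 * (n : ℝ)) ≤ d i then d i ^ a else 0) :=
    Finset.sum_le_sum fun i hi => by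
      have := point hn ha ha' (h0 i hi)
      refine this.trans (le_of_eq ?_)
      congr 1
  have h2 : ∑ i ∈ s, (1 + (n : ℝ) * (2 * d i - 1)) =
      s.card + n * (2 * ∑ i ∈ s, d i - s.card) := by
    rw [Finset.sum_add_distrib, ← Finset.mul_sum, Finset.sum_sub_distrib, ← Finset.mul_sum,
      Finset.sum_const, nsmul_eq_mul, mul_one]
  rw [h2, ← Finset.mul_sum] at h1
  have h3 : 0 ≤ (n : ℝ) * (2 * ∑ i ∈ s, d i - s.card) :=
    mul_nonneg (Nat.cast_nonneg n) (by linarith)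
  linarith

end Pool.Agent.SWP
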