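import Pool.Agent.SWP.Defs

/-!
# SWP-Sel: the selection lemma (Mathlib only)
-/

set_option autoImplicit false

open Finset

namespace Pool.Agent.SWP

open Classical in
private theorem card_eq_le {α : Type} (S : Finset α) (t : ℕ) (i j : Fin t) (hij : i ≠ j) :
    ((Fintype.piFinset (fun _ : Fin t => S)).filter (fun φ => φ i = φ j)).card
      ≤ S.card ^ (t - 1) := by
  have h1 : (Fintype.piFinset (fun _ : {k : Fin t // k ≠ j} => S)).card = S.card ^ (t - 1) := by
    rw [Fintype.card_piFinset, prod_const, card_univ]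
    congr 1
    rw [Fintype.card_subtype_compl]
    simp
  rw [← h1]
  apply Finset.card_le_card_of_injOn (fun φ => fun k : {k : Fin t // k ≠ j} => φ k)
  · intro φ hφ
    have := (Finset.mem_filter.1 (Finset.mem_coe.1 hφ)).1
    rw [Finset.mem_coe, Fintype.mem_piFinset]
    intro k
    exact Fintype.mem_piFinset.1 this k
  · intro φ hφ ψ hψ h
    have h2 := (Finset.mem_filter.1 (Finset.mem_coe.1 hφ)).2
    have h3 := (Finset.mem_filter.1 (Finset.mem_coe.1 hψ)).2
    have h4 : ∀ k : Fin t, k ≠ j → φ k = ψ k := fun k hk => congrFun h ⟨k, hk⟩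
    funext k
    by_cases hk : k = j
    · subst hk
      rw [← h2, ← h3]
      exact h4 i hij
    · exact h4 k hk

open Classical in
private theorem noninj_le {α : Type} (S : Finset α) (t : ℕ) :
    (((Fintype.piFinset (fun _ : Fin t => S)).filter
      (fun φ => ¬ Function.Injective φ)).card : ℝ) ≤ (t : ℝ) ^ 2 / 2 * (S.card : ℝ) ^ (t - 1) := by
  have h1 : (Fintype.piFinset (fun _ : Fin t => S)).filter (fun φ => ¬ Function.Injective φ) ⊆
      (univ : Finset (Fin t)).biUnion (fun j => (Iio j).biUnion (fun i =>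
        (Fintype.piFinset (fun _ : Fin t => S)).filter (fun φ => φ i = φ j))) := by
    intro φ hφ
    obtain ⟨h2, h3⟩ := Finset.mem_filter.1 hφ
    simp only [Function.Injective, not_forall] at h3
    obtain ⟨i, j, hij, hne⟩ := h3
    simp only [mem_biUnion, mem_univ, true_and, mem_Iio, mem_filter]
    rcases lt_or_gt_of_ne hne with h | h
    · exact ⟨j, i, h, h2, hij⟩
    · exact ⟨i, j, h, h2, hij.symm⟩
  have h2 : ((Fintype.piFinset (fun _ : Fin t => S)).filter
      (fun φ => ¬ Function.Injective φ)).card ≤ ∑ j : Fin t, (j : ℕ) * S.card ^ (t - 1) := by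
    refine (card_le_card h1).trans (card_biUnion_le.trans (sum_le_sum fun j _ => ?_))
    refine card_biUnion_le.trans ?_
    calc ∑ i ∈ Iio j, ((Fintype.piFinset (fun _ : Fin t => S)).filter
          (fun φ => φ i = φ j)).card ≤ ∑ i ∈ Iio j, S.card ^ (t - 1) := by
          refine sum_le_sum fun i hi => card_eq_le S t i j (ne_of_lt (mem_Iio.1 hi))
      _ = (j : ℕ) * S.card ^ (t - 1) := by rw [sum_const, Fin.card_Iio, smul_eq_mul]
  rw [← Finset.sum_mul] at h2
  have h3 : ((∑ j : Fin t, (j : ℕ) : ℕ) : ℝ) ≤ (t : ℝ) ^ 2 / 2 := by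
    have h4 : (∑ j : Fin t, (j : ℕ)) * 2 = t * (t - 1) := by
      rw [Fin.sum_univ_eq_sum_range (fun i => i)]
      exact Finset.sum_range_id_mul_two t
    have h5 : (∑ j : Fin t, (j : ℕ)) * 2 ≤ t * t := by
      rw [h4]; exact Nat.mul_le_mul_left _ (Nat.sub_le _ _)
    have h6 : ((∑ j : Fin t, (j : ℕ) : ℕ) : ℝ) * 2 ≤ (t : ℝ) * t := by exact_mod_cast h5
    nlinarith
  calc (((Fintype.piFinset (fun _ : Fin t => S)).filter
      (fun φ => ¬ Function.Injective φ)).card : ℝ)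
      ≤ (((∑ j : Fin t, (j : ℕ)) * S.card ^ (t - 1) : ℕ) : ℝ) := by exact_mod_cast h2
    _ = ((∑ j : Fin t, (j : ℕ) : ℕ) : ℝ) * (S.card : ℝ) ^ (t - 1) := by push_cast; rfl
    _ ≤ (t : ℝ) ^ 2 / 2 * (S.card : ℝ) ^ (t - 1) := by gcongr

open Classical in
theorem sel {α β : Type} (P : Finset α) (Q : Finset β) (T : α → β → Prop) (t : ℕ) (ρ : ℝ)
    (hρ : 0 < ρ)
    (hsum : ρ * P.card * Q.card ≤ ∑ q ∈ Q, ((P.filter (fun p => T p q)).card : ℝ))
    (hP : 2 * (t : ℝ) ^ 2 ≤ ρ * P.card) (hQ0 : Q.Nonempty) :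
    ∃ A ⊆ P, A.card = t ∧
      (1 / 2 : ℝ) * ρ ^ t * Q.card ≤ ((Q.filter (fun q => ∀ p ∈ A, T p q)).card : ℝ) := by
  rcases Nat.eq_zero_or_pos t with ht | ht
  · subst ht
    refine ⟨∅, empty_subset _, card_empty, ?_⟩
    have : Q.filter (fun q => ∀ p ∈ (∅ : Finset α), T p q) = Q := by
      apply filter_true_of_mem; intro q _ p hp; simp at hp
    rw [this]
    have : (0 : ℝ) ≤ Q.card := Nat.cast_nonneg _
    simp; linarith
  -- main case
  set D : β → ℝ := fun q => ((P.filter (fun p => T p q)).card : ℝ) with hD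
  have hD0 : ∀ q, 0 ≤ D q := fun q => Nat.cast_nonneg _
  set θ : ℝ := ρ * P.card with hθ
  have ht1 : (1 : ℝ) ≤ t := by exact_mod_cast ht
  have hθ2 : 0 < θ := by nlinarith
  have hP0 : (0 : ℝ) < P.card := by
    by_contra h
    have : (P.card : ℝ) = 0 := le_antisymm (not_lt.1 h) (Nat.cast_nonneg _)
    rw [hθ, this, mul_zero] at hθ2
    exact lt_irrefl _ hθ2
  obtain ⟨m, rfl⟩ : ∃ m, t = m + 1 := ⟨t - 1, by omega⟩
  -- power mean
  have hpm : θ ^ (m + 1) * Q.card ≤ ∑ q ∈ Q, D q ^ (m + 1) := by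
    rcases Nat.eq_zero_or_pos Q.card with hQ | hQ
    · rw [hQ, Nat.cast_zero, mul_zero]
      exact sum_nonneg fun q _ => pow_nonneg (hD0 q) _
    · have hQ' : (0 : ℝ) < Q.card := by exact_mod_cast hQ
      have h1 := pow_sum_div_card_le_sum_pow (s := Q) (f := D) (fun q _ => hD0 q) m
      have h2 : (θ * Q.card) ^ (m + 1) ≤ (∑ q ∈ Q, D q) ^ (m + 1) :=
        pow_le_pow_left₀ (by positivity) (by rw [hθ]; exact hsum) _
      have h3 : (θ * Q.card) ^ (m + 1) / (Q.card : ℝ) ^ m = θ ^ (m + 1) * Q.card := by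
        rw [mul_pow, pow_succ (Q.card : ℝ) m]
        field_simp
      rw [← h3]
      refine le_trans ?_ h1
      gcongr
  -- lower moment
  have hlow : ∑ q ∈ Q, D q ^ m ≤ 2 / θ * ∑ q ∈ Q, D q ^ (m + 1) := by
    have h1 : ∀ q ∈ Q, D q ^ m ≤ D q ^ (m + 1) / θ + θ ^ m := by
      intro q _
      rcases le_total θ (D q) with h | h
      · have : D q ^ m ≤ D q ^ (m + 1) / θ := by
          rw [le_div_iff₀ hθ2, pow_succ]
          exact mul_le_mul_of_nonneg_left h (pow_nonneg (hD0 q) _)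
        have h3 : 0 ≤ θ ^ m := by positivity
        linarith
      · have : D q ^ m ≤ θ ^ m := pow_le_pow_left₀ (hD0 q) h _
        have h3 : 0 ≤ D q ^ (m + 1) / θ := div_nonneg (pow_nonneg (hD0 q) _) hθ2.le
        linarith
    calc ∑ q ∈ Q, D q ^ m ≤ ∑ q ∈ Q, (D q ^ (m + 1) / θ + θ ^ m) := sum_le_sum h1
      _ = (∑ q ∈ Q, D q ^ (m + 1)) / θ + θ ^ (m + 1) * Q.card / θ := by
          rw [sum_add_distrib, sum_const, nsmul_eq_mul, ← Finset.sum_div, pow_succ]
          field_simp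
      _ ≤ (∑ q ∈ Q, D q ^ (m + 1)) / θ + (∑ q ∈ Q, D q ^ (m + 1)) / θ := by gcongr
      _ = 2 / θ * ∑ q ∈ Q, D q ^ (m + 1) := by ring
  -- double counting
  set c : (Fin (m + 1) → α) → ℝ := fun φ => ((Q.filter (fun q => ∀ i, T (φ i) q)).card : ℝ) with hc
  set Φ := Fintype.piFinset (fun _ : Fin (m + 1) => P) with hΦ
  have hdc : ∀ (pr : (Fin (m + 1) → α) → Prop) [DecidablePred pr],
      ∑ φ ∈ Φ.filter pr, c φ = ∑ q ∈ Q,
      (((Fintype.piFinset (fun _ : Fin (m + 1) => P.filter (fun p => T p q))).filter pr).card : ℝ) := by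
    intro pr _
    have h1 : ∑ φ ∈ Φ.filter pr, (Q.filter (fun q => ∀ i, T (φ i) q)).card =
        ∑ q ∈ Q, ((Φ.filter pr).filter (fun φ => ∀ i, T (φ i) q)).card :=
      sum_card_bipartiteAbove_eq_sum_card_bipartiteBelow
        (fun (φ : Fin (m + 1) → α) (q : β) => ∀ i, T (φ i) q)
    have h2 : ∀ q, (Φ.filter pr).filter (fun φ => ∀ i, T (φ i) q) =
        (Fintype.piFinset (fun _ : Fin (m + 1) => P.filter (fun p => T p q))).filter pr := by
      intro q
      ext φ
      simp only [hΦ, mem_filter, Fintype.mem_piFinset]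
      constructor
      · rintro ⟨⟨h3, h4⟩, h5⟩
        exact ⟨fun i => ⟨h3 i, h5 i⟩, h4⟩
      · rintro ⟨h3, h4⟩
        exact ⟨⟨fun i => (h3 i).1, h4⟩, fun i => (h3 i).2⟩
    simp only [h2] at h1
    have h3 : ∑ φ ∈ Φ.filter pr, c φ =
        ((∑ φ ∈ Φ.filter pr, (Q.filter (fun q => ∀ i, T (φ i) q)).card : ℕ) : ℝ) := by
      push_cast
      rfl
    rw [h3, h1]
    push_cast
    rfl
  have htot : ∑ φ ∈ Φ, c φ = ∑ q ∈ Q, D q ^ (m + 1) := by
    have h1 := hdc (fun _ => True)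
    simp only [Finset.filter_true] at h1
    rw [h1]
    refine sum_congr rfl fun q _ => ?_
    rw [Fintype.card_piFinset, prod_const, card_univ, Fintype.card_fin]
    push_cast
    rfl
  have hnon : ∑ φ ∈ Φ.filter (fun φ => ¬ Function.Injective φ), c φ ≤
      1 / 2 * ∑ q ∈ Q, D q ^ (m + 1) := by
    rw [hdc]
    calc ∑ q ∈ Q, (((Fintype.piFinset (fun _ : Fin (m + 1) => P.filter (fun p => T p q))).filter
          (fun φ => ¬ Function.Injective φ)).card : ℝ)
        ≤ ∑ q ∈ Q, (((m + 1 : ℕ) : ℝ) ^ 2 / 2 * D q ^ m) := by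
          refine sum_le_sum fun q _ => ?_
          exact noninj_le (P.filter (fun p => T p q)) (m + 1)
      _ = ((m + 1 : ℕ) : ℝ) ^ 2 / 2 * ∑ q ∈ Q, D q ^ m := by rw [mul_sum]
      _ ≤ ((m + 1 : ℕ) : ℝ) ^ 2 / 2 * (2 / θ * ∑ q ∈ Q, D q ^ (m + 1)) := by gcongr
      _ = (((m + 1 : ℕ) : ℝ) ^ 2 / θ) * ∑ q ∈ Q, D q ^ (m + 1) := by ring
      _ ≤ 1 / 2 * ∑ q ∈ Q, D q ^ (m + 1) := by
          apply mul_le_mul_of_nonneg_right _ (sum_nonneg fun q _ => pow_nonneg (hD0 q) _)
          rw [div_le_iff₀ hθ2]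
          linarith
  have hinj : 1 / 2 * ∑ q ∈ Q, D q ^ (m + 1) ≤ ∑ φ ∈ Φ.filter (fun φ => Function.Injective φ), c φ := by
    have := Finset.sum_filter_add_sum_filter_not Φ (fun φ => Function.Injective φ) c
    rw [htot] at this
    linarith
  -- choose
  by_contra hcon
  push Not at hcon
  have hsmall : ∀ φ ∈ Φ.filter (fun φ => Function.Injective φ),
      c φ < 1 / 2 * ρ ^ (m + 1) * Q.card := by
    intro φ hφ
    obtain ⟨h1, h2⟩ := mem_filter.1 hφ
    have h3 := hcon (univ.image φ) (by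
      intro x hx
      obtain ⟨i, _, rfl⟩ := mem_image.1 hx
      exact Fintype.mem_piFinset.1 h1 i) (by
      rw [card_image_of_injective _ h2, card_univ, Fintype.card_fin])
    have h5 : c φ = ((Q.filter (fun q => ∀ p ∈ univ.image φ, T p q)).card : ℝ) := by
      have h6 : Q.filter (fun q => ∀ i, T (φ i) q) =
          Q.filter (fun q => ∀ p ∈ univ.image φ, T p q) := by
        ext q
        simp
      show ((Q.filter (fun q => ∀ i, T (φ i) q)).card : ℝ) = _
      rw [h6]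
    refine lt_of_eq_of_lt (h5.trans ?_) h3
    congr
  have hcardΦ : ((Φ.filter (fun φ => Function.Injective φ)).card : ℝ) ≤ (P.card : ℝ) ^ (m + 1) := by
    have h1 : (Φ.filter (fun φ => Function.Injective φ)).card ≤ P.card ^ (m + 1) := by
      refine (card_filter_le _ _).trans ?_
      rw [hΦ, Fintype.card_piFinset, prod_const, card_univ, Fintype.card_fin]
    exact_mod_cast h1
  have hQpos : (0 : ℝ) < Q.card := by exact_mod_cast hQ0.card_pos
  -- nonempty
  have hne : (Φ.filter (fun φ => Function.Injective φ)).Nonempty := by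
    by_contra hne
    rw [not_nonempty_iff_eq_empty] at hne
    -- there is an injective function since 2 t^2 ≤ ρ |P|; if not, the sum is zero
    rw [hne, sum_empty] at hinj
    have h5 : θ ^ (m + 1) * Q.card ≤ 0 := by linarith
    have : 0 < θ ^ (m + 1) * Q.card := by positivity
    linarith
  have hlt : ∑ φ ∈ Φ.filter (fun φ => Function.Injective φ), c φ <
      ∑ φ ∈ Φ.filter (fun φ => Function.Injective φ), 1 / 2 * ρ ^ (m + 1) * Q.card :=
    sum_lt_sum_of_nonempty hne hsmall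
  rw [sum_const, nsmul_eq_mul] at hlt
  have h7 : ((Φ.filter (fun φ => Function.Injective φ)).card : ℝ) *
      (1 / 2 * ρ ^ (m + 1) * Q.card) ≤ (P.card : ℝ) ^ (m + 1) * (1 / 2 * ρ ^ (m + 1) * Q.card) := by
    gcongr
  have h8 : (P.card : ℝ) ^ (m + 1) * (1 / 2 * ρ ^ (m + 1) * Q.card) =
      1 / 2 * (θ ^ (m + 1) * Q.card) := by
    rw [hθ, mul_pow]; ring
  linarith

end Pool.Agent.SWP
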