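import Pool.Agent.SWP.Defs

/-!
# SWP-Swap: many columns with exactly `l` defects
-/

set_option autoImplicit false

open Finset

namespace Pool.Agent.SWP

private theorem ra_mem {X Y : Type} (R : X → Y → Prop) {a : ℕ} (H : Finset Y) (A : Fin a → X)
    (J : Finset (Fin a)) (y : Y) : y ∈ pt R H A J ↔ y ∈ H ∧ ∀ j, (j ∈ J ↔ ¬ R (A j) y) := by
  classical
  unfold pt
  rw [mem_filter]
  refine and_congr_right fun _ => ?_
  constructor
  · rintro h j
    rw [← h]
    unfold df
    rw [mem_filter]
    exact ⟨fun h => h.2, fun h => ⟨mem_univ _, h⟩⟩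
  · intro h
    ext j
    rw [h j]
    unfold df
    rw [mem_filter]
    exact ⟨fun h => h.2, fun h => ⟨mem_univ _, h⟩⟩

private theorem rb_mem {X Y : Type} (R : X → Y → Prop) {a : ℕ} (H : Finset Y) (A : Fin a → X)
    (J : Finset (Fin a)) (i : Fin a) (y : Y) :
    y ∈ pu R H A J i ↔ y ∈ H ∧ ∀ j, j ≠ i → (j ∈ J ↔ ¬ R (A j) y) := by
  classical
  unfold pu
  rw [mem_filter]

private theorem rc_card {X Y : Type} (R : X → Y → Prop) {a : ℕ} (H : Finset Y) (A : Fin a → X)
    (J : Finset (Fin a)) (i : Fin a) (hi : i ∉ J) :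
    nb R (pu R H A J i) (A i) = pt R H A J ∧
      (pu R H A J i).card = (pt R H A J).card + (pt R H A (insert i J)).card := by
  classical
  have h1 : nb R (pu R H A J i) (A i) = pt R H A J := by
    ext y
    unfold nb
    rw [mem_filter, rb_mem, ra_mem]
    constructor
    · rintro ⟨⟨hy, h1⟩, h2⟩
      refine ⟨hy, fun j => ?_⟩
      by_cases hj : j = i
      · subst hj
        exact ⟨fun h => absurd h hi, fun h => absurd h2 h⟩
      · exact h1 j hj
    · rintro ⟨hy, h1⟩
      refine ⟨⟨hy, fun j _ => h1 j⟩, ?_⟩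
      by_contra h3
      exact hi ((h1 i).2 h3)
  refine ⟨h1, ?_⟩
  have h2 : Disjoint (pt R H A J) (pt R H A (insert i J)) := by
    rw [Finset.disjoint_left]
    intro y hy hy'
    rw [ra_mem] at hy hy'
    have h3 := (hy'.2 i).1 (mem_insert_self i J)
    exact hi ((hy.2 i).2 h3)
  rw [← Finset.card_union_of_disjoint h2]
  congr 1
  ext y
  rw [mem_union, rb_mem, ra_mem, ra_mem]
  constructor
  · rintro ⟨hy, h3⟩
    by_cases h4 : R (A i) y
    · refine Or.inl ⟨hy, fun j => ?_⟩
      by_cases hj : j = i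
      · subst hj
        exact ⟨fun h => absurd h hi, fun h => absurd h4 h⟩
      · exact h3 j hj
    · refine Or.inr ⟨hy, fun j => ?_⟩
      by_cases hj : j = i
      · subst hj
        exact ⟨fun _ => h4, fun _ => mem_insert_self _ _⟩
      · rw [mem_insert, ← h3 j hj]
        exact ⟨fun h => h.resolve_left hj, fun h => Or.inr h⟩
  · rintro (⟨hy, h3⟩ | ⟨hy, h3⟩)
    · exact ⟨hy, fun j _ => h3 j⟩
    · refine ⟨hy, fun j hj => ?_⟩
      rw [← h3 j, mem_insert]
      exact ⟨fun h => Or.inr h, fun h => h.resolve_left hj⟩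

private theorem rd_ind {X Y : Type} (R : X → Y → Prop) (n l a : ℕ) (H : Finset Y) (A : Fin a → X)
    (hg : Gd R H n l A) (hbig : 3 * n ^ 2 * 2 ^ l ≤ (pt R H A ∅).card) (I : Finset (Fin a)) :
    I.card ≤ l → (pt R H A ∅).card ≤ 2 ^ I.card * (pt R H A I).card := by
  classical
  induction I using Finset.induction_on with
  | empty =>
    intro _
    rw [card_empty, pow_zero, one_mul]
  | insert i J hi ih =>
    intro hI
    rw [card_insert_of_notMem hi] at hI
    have h1 := ih (by omega)
    obtain ⟨h2, h3⟩ := rc_card R H A J i hi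
    have h4 : 3 * n ^ 2 ≤ (pt R H A J).card := by
      have h5 : 2 ^ J.card ≤ 2 ^ l := Nat.pow_le_pow_right (by norm_num) (by omega)
      have h6 : 2 ^ J.card * (3 * n ^ 2) ≤ 2 ^ J.card * (pt R H A J).card := by
        calc 2 ^ J.card * (3 * n ^ 2) = 3 * n ^ 2 * 2 ^ J.card := by ring
          _ ≤ 3 * n ^ 2 * 2 ^ l := Nat.mul_le_mul_left _ h5
          _ ≤ (pt R H A ∅).card := hbig
          _ ≤ _ := h1
      exact Nat.le_of_mul_le_mul_left h6 (by positivity)
    have h7 := hg J i hi (by omega) (by omega)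
    rw [h2] at h7
    have h8 : (pt R H A J).card ≤ 2 * (pt R H A (insert i J)).card := by omega
    rw [card_insert_of_notMem hi]
    calc (pt R H A ∅).card ≤ 2 ^ J.card * (pt R H A J).card := h1
      _ ≤ 2 ^ J.card * (2 * (pt R H A (insert i J)).card) := Nat.mul_le_mul_left _ h8
      _ = 2 ^ (J.card + 1) * (pt R H A (insert i J)).card := by ring

open Classical in
theorem pool {X Y : Type} (R : X → Y → Prop) (n l a : ℕ) (H : Finset Y) (A : Fin a → X)
    (hg : Gd R H n l A) (hbig : 3 * n ^ 2 * 2 ^ l ≤ (pt R H A ∅).card) :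
    a.choose l * (pt R H A ∅).card ≤ 2 ^ l * (H.filter (fun y => (df R A y).card = l)).card := by
  have h1 : (H.filter (fun y => (df R A y).card = l)).card =
      ∑ I ∈ powersetCard l (univ : Finset (Fin a)), (pt R H A I).card := by
    have h2 : ∀ y ∈ H.filter (fun y => (df R A y).card = l),
        df R A y ∈ powersetCard l (univ : Finset (Fin a)) := by
      intro y hy
      rw [mem_powersetCard]
      exact ⟨subset_univ _, (mem_filter.1 hy).2⟩
    rw [card_eq_sum_card_fiberwise h2]
    refine Finset.sum_congr rfl fun I hI => ?_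
    rw [mem_powersetCard] at hI
    congr 1
    ext y
    unfold pt
    rw [mem_filter, mem_filter, mem_filter]
    constructor
    · rintro ⟨⟨hy, -⟩, h3⟩
      exact ⟨hy, h3⟩
    · rintro ⟨hy, h3⟩
      exact ⟨⟨hy, by rw [h3]; exact hI.2⟩, h3⟩
  rw [h1, Finset.mul_sum]
  calc a.choose l * (pt R H A ∅).card
      = ∑ I ∈ powersetCard l (univ : Finset (Fin a)), (pt R H A ∅).card := by
        rw [Finset.sum_const, Finset.card_powersetCard, Finset.card_univ, Fintype.card_fin, smul_eq_mul]
    _ ≤ ∑ I ∈ powersetCard l (univ : Finset (Fin a)), 2 ^ l * (pt R H A I).card := by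
        refine Finset.sum_le_sum fun I hI => ?_
        rw [mem_powersetCard] at hI
        have h4 := rd_ind R n l a H A hg hbig I hI.2.le
        rw [hI.2] at h4
        exact h4

end Pool.Agent.SWP
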