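import Pool.Agent.SWP.Pow
import Pool.Agent.SWP.Good
import Pool.Agent.SWP.Swap

/-! # SWP-StepA: the first rows and the pool of columns with `l` defects -/

set_option autoImplicit false

open Finset

namespace Pool.Agent.SWP

open Classical in
theorem stepA {X Y : Type} [Fintype X] [Fintype Y] (R : X → Y → Prop) (N n l a : ℕ)
    (hX : Fintype.card X = N) (hY : Fintype.card Y = N)
    (hden : (N : ℝ) ^ 2 / 2 ≤ ∑ y : Y, ((univ.filter (fun x : X => R x y)).card : ℝ))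
    (hno : ¬ Bic R n) (hn : 4 ≤ n) (ha : n ≤ 4 * a) (ha' : a ≤ n) (hl : 1 ≤ l)
    (hbad : ((a * (l * (a + 1) ^ l) : ℕ) : ℝ) * (8 * n * (3 / 2 : ℝ) ^ n) + 2 * (a : ℝ) ^ 2 ≤
      (N : ℝ) / 2)
    (h1 : 8 * (n : ℝ) ^ 2 * 2 ^ l ≤ (N : ℝ) / (8 * 2 ^ a)) :
    ∃ (A : Fin a → X) (Y1 P : Finset Y), Function.Injective A ∧ Disjoint Y1 P ∧
      (∀ y ∈ Y1, ∀ i, R (A i) y) ∧ (∀ y ∈ P, (df R A y).card ≤ l) ∧
      (∀ y ∈ Y1, (1 / 2 - 1 / (2 * (n : ℝ))) * N ≤ ((univ.filter (fun x : X => R x y)).card : ℝ)) ∧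
      (N : ℝ) / (8 * 2 ^ a) ≤ Y1.card ∧
      a.choose l * Y1.card ≤ 2 ^ l * P.card := by
  have hn0 : (4 : ℝ) ≤ n := by exact_mod_cast hn
  have hNpos : (0 : ℝ) < N := by
    by_contra h
    have h2 : (N : ℝ) = 0 := le_antisymm (not_lt.1 h) (Nat.cast_nonneg N)
    rw [h2, zero_div] at h1
    have h3 : (0 : ℝ) < 8 * (n : ℝ) ^ 2 * 2 ^ l := by positivity
    linarith
  have hXr : (Fintype.card X : ℝ) = N := by exact_mod_cast hX
  have hYr : ((univ : Finset Y).card : ℝ) = N := by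
    rw [card_univ]
    exact_mod_cast hY
  set H : Finset Y := univ.filter (fun y : Y => 1 / 2 - 1 / (2 * (n : ℝ)) ≤
    ((univ.filter (fun x : X => R x y)).card : ℝ) / N) with hH
  have hHm : ∀ y ∈ H, (1 / 2 - 1 / (2 * (n : ℝ))) * N ≤
      ((univ.filter (fun x : X => R x y)).card : ℝ) := by
    intro y hy
    rw [hH, mem_filter] at hy
    exact (le_div_iff₀ hNpos).1 hy.2
  have hheavy := heavy (univ : Finset Y)
    (fun y => ((univ.filter (fun x : X => R x y)).card : ℝ) / N)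
    (fun y _ => by positivity) (by
      rw [hYr, ← sum_div, le_div_iff₀ hNpos]
      refine le_trans (le_of_eq ?_) hden
      ring) n a (by omega) ha ha'
  rw [hYr] at hheavy
  have hdeg : ∀ y ∈ H, (Fintype.card X : ℝ) / 4 ≤
      ((univ.filter (fun x : X => R x y)).card : ℝ) := by
    intro y hy
    have h2 := hHm y hy
    have h3 : 1 / (2 * (n : ℝ)) ≤ 1 / 8 := by
      apply one_div_le_one_div_of_le (by norm_num)
      linarith
    rw [hXr]
    nlinarith
  have hcX : 0 < Fintype.card X := by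
    rw [hX]
    exact_mod_cast hNpos
  obtain ⟨A, hinj, hg, hc⟩ := good R n l a H hno hdeg hcX (by rw [hXr]; exact hbad)
  rw [hXr] at hc
  have hY1 : (N : ℝ) / (8 * 2 ^ a) ≤ ((pt R H A ∅).card : ℝ) := by
    refine le_trans ?_ hc
    have h2 : (N : ℝ) / (8 * 2 ^ a) = 1 / 2 * (N / (4 * 2 ^ a)) := by
      field_simp
      norm_num
    rw [h2]
    exact mul_le_mul_of_nonneg_left hheavy (by norm_num)
  have hbig : 3 * n ^ 2 * 2 ^ l ≤ (pt R H A ∅).card := by
    have h2 : ((3 * n ^ 2 * 2 ^ l : ℕ) : ℝ) ≤ ((pt R H A ∅).card : ℝ) := by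
      refine le_trans ?_ (h1.trans hY1)
      push_cast
      have h3 : (0 : ℝ) ≤ (n : ℝ) ^ 2 * 2 ^ l := by positivity
      nlinarith
    exact_mod_cast h2
  have hmem : ∀ y ∈ pt R H A ∅, y ∈ H ∧ df R A y = ∅ := by
    intro y hy
    exact mem_filter.1 hy
  refine ⟨A, pt R H A ∅, H.filter (fun y => (df R A y).card = l), hinj, ?_, ?_, ?_, ?_, hY1,
    pool R n l a H A hg hbig⟩
  · rw [disjoint_left]
    intro y hy hy2
    have h2 := (mem_filter.1 hy2).2
    rw [(hmem y hy).2, card_empty] at h2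
    omega
  · intro y hy i
    by_contra hR
    have h2 : i ∈ df R A y := mem_filter.2 ⟨mem_univ _, hR⟩
    rw [(hmem y hy).2] at h2
    simp at h2
  · intro y hy
    exact (mem_filter.1 hy).2.le
  · intro y hy
    exact hHm y (hmem y hy).1

end Pool.Agent.SWP
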